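import Pool.Agent.R674.Golod.Kos

/-! The Koszul algebra: Leibniz rule and associativity. -/

namespace Pool.Agent.R674.Golod

open Finset

universe u

variable {n : ℕ} {R : Type*} [CommRing R]

lemma sgn_split (i : Fin n) {A N : Finset (Fin n)} (h : A ⊆ N) :
    sgn i N = sgn i A * sgn i (N \ A) := by
  unfold sgn
  rw [← pow_add, ← Finset.card_union_of_disjoint]
  · congr 2
    ext j
    simp only [mem_union, mem_filter, mem_sdiff]
    constructor
    · rintro ⟨h1, h2⟩
      by_cases hj : j ∈ A
      · exact Or.inl ⟨hj, h2⟩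
      · exact Or.inr ⟨⟨h1, hj⟩, h2⟩
    · rintro (⟨h1, h2⟩ | ⟨⟨h1, _⟩, h2⟩)
      · exact ⟨h h1, h2⟩
      · exact ⟨h1, h2⟩
  · rw [Finset.disjoint_left]
    intro j h1 h2
    simp only [mem_filter, mem_sdiff] at h1 h2
    exact h2.1.2 h1.1

lemma shuf_union_left {A B C : Finset (Fin n)} (h : Disjoint A B) :
    shuf (A ∪ B) C = shuf A C * shuf B C := by
  unfold shuf
  rw [← pow_add, ← Finset.card_union_of_disjoint]
  · congr 2
    ext ⟨a, b⟩
    simp only [mem_filter, mem_product, mem_union]
    tauto
  · rw [Finset.disjoint_left] at h ⊢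
    rintro ⟨a, b⟩ h1 h2
    simp only [mem_filter, mem_product] at h1 h2
    exact h h1.1.1 h2.1.1

lemma shuf_union_right {A B C : Finset (Fin n)} (h : Disjoint B C) :
    shuf A (B ∪ C) = shuf A B * shuf A C := by
  unfold shuf
  rw [← pow_add, ← Finset.card_union_of_disjoint]
  · congr 2
    ext ⟨a, b⟩
    simp only [mem_filter, mem_product, mem_union]
    tauto
  · rw [Finset.disjoint_left] at h ⊢
    rintro ⟨a, b⟩ h1 h2
    simp only [mem_filter, mem_product] at h1 h2
    exact h h1.1.2 h2.1.2

/-- contraction with `e_i` -/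
def iota (i : Fin n) (a : Kos n R) : Kos n R := fun N => if i ∈ N then 0 else sgn i N • a (insert i N)

lemma d_eq (x : Fin n → R) (a : Kos n R) (N : Finset (Fin n)) :
    d x a N = ∑ i, x i * iota i a N := by
  unfold d iota
  rw [← Finset.sum_subset (Finset.subset_univ Nᶜ)]
  · refine Finset.sum_congr rfl fun i hi => ?_
    rw [if_neg (by simpa using hi), mul_smul_comm]
  · intro i _ hi
    rw [if_pos (by simpa using hi), mul_zero]

/-- the grading involution -/
def inv' (a : Kos n R) : Kos n R := fun N => ((-1 : ℤ) ^ N.card) • a N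

lemma inv'_of_inDeg {p : ℕ} {a : Kos n R} (h : InDeg p a) : inv' a = ((-1 : ℤ) ^ p) • a := by
  funext N
  unfold inv'
  by_cases hN : N.card = p
  · rw [hN]; rfl
  · rw [Pi.smul_apply, h N hN, smul_zero, smul_zero]

lemma iota_mul (i : Fin n) (a b : Kos n R) :
    iota i (mul a b) = mul (iota i a) b + mul (inv' a) (iota i b) := by
  funext N
  by_cases hi : i ∈ N
  · obtain ⟨M, hM, rfl⟩ : ∃ M, i ∉ M ∧ N = insert i M :=
      ⟨N.erase i, Finset.notMem_erase i N, (Finset.insert_erase hi).symm⟩
    simp only [iota, Pi.add_apply, mul, if_pos hi]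
    rw [Finset.sum_powerset_insert hM, Finset.sum_powerset_insert hM]
    have e1 : ∑ t ∈ M.powerset, shuf (insert i t) (insert i M \ insert i t) •
        ((if i ∈ insert i t then (0 : R) else sgn i (insert i t) • a (insert i (insert i t))) *
          b (insert i M \ insert i t)) = 0 := by
      apply Finset.sum_eq_zero
      intro t _
      rw [if_pos (Finset.mem_insert_self i t), zero_mul, smul_zero]
    have e2 : ∑ t ∈ M.powerset, shuf t (insert i M \ t) •
        (inv' a t * (if i ∈ insert i M \ t then (0 : R) else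
          sgn i (insert i M \ t) • b (insert i (insert i M \ t)))) = 0 := by
      apply Finset.sum_eq_zero
      intro t ht
      have ht' : i ∉ t := fun h => hM (Finset.mem_powerset.1 ht h)
      rw [if_pos (by simp [ht']), mul_zero, smul_zero]
    rw [e1, e2, add_zero, zero_add, ← Finset.sum_add_distrib]
    symm
    apply Finset.sum_eq_zero
    intro t ht
    have htM := Finset.mem_powerset.1 ht
    have ht' : i ∉ t := fun h => hM (htM h)
    have hB : i ∉ M \ t := by simp [hM]
    have s1 : insert i M \ t = insert i (M \ t) := Finset.insert_sdiff_of_notMem M ht'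
    have s2 : insert i M \ insert i t = M \ t := by
      ext j; simp only [mem_sdiff, mem_insert, not_or]
      constructor
      · rintro ⟨h1 | h1, h2, h3⟩
        · exact absurd h1 h2
        · exact ⟨h1, h3⟩
      · rintro ⟨h1, h2⟩
        exact ⟨Or.inr h1, fun e => hM (e ▸ h1), h2⟩
    rw [s1, s2, if_neg ht', if_neg hB, shuf_insert_right hB, shuf_insert_left ht']
    simp only [inv', smul_mul_assoc, mul_smul_comm, smul_smul]
    rw [← add_smul, Finset.card_insert_of_notMem ht', pow_succ]
    have h1 := sgn_mul_sgn' ht'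
    have h2 := sgn_mul_self i (M \ t)
    have : shuf t (M \ t) * sgn' i t * sgn i t +
        shuf t (M \ t) * sgn i (M \ t) * (sgn i (M \ t) * ((-1) ^ t.card * -1)) = 0 := by
      calc _ = shuf t (M \ t) * (sgn i t * sgn' i t) -
          shuf t (M \ t) * (sgn i (M \ t) * sgn i (M \ t)) * (-1) ^ t.card := by ring
        _ = 0 := by rw [h1, h2]; ring
    convert zero_smul ℤ (a (insert i t) * b (insert i (M \ t))) using 2
  · simp only [iota, Pi.add_apply, mul, if_neg hi]
    rw [Finset.sum_powerset_insert hi, smul_add, Finset.smul_sum, Finset.smul_sum, add_comm]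
    congr 1
    · refine Finset.sum_congr rfl fun t ht => ?_
      have htN := Finset.mem_powerset.1 ht
      have ht' : i ∉ t := fun h => hi (htN h)
      have s2 : insert i N \ insert i t = N \ t := by
        ext j; simp only [mem_sdiff, mem_insert, not_or]
        constructor
        · rintro ⟨h1 | h1, h2, h3⟩
          · exact absurd h1 h2
          · exact ⟨h1, h3⟩
        · rintro ⟨h1, h2⟩
          exact ⟨Or.inr h1, fun e => hi (e ▸ h1), h2⟩
      rw [s2, if_neg ht', shuf_insert_left ht', sgn_split i htN, smul_mul_assoc, smul_smul,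
        smul_smul]
      congr 1
      have h2 := sgn_mul_self i (N \ t)
      calc _ = shuf t (N \ t) * sgn i t * (sgn i (N \ t) * sgn i (N \ t)) := by ring
        _ = _ := by rw [h2, mul_one]
    · refine Finset.sum_congr rfl fun t ht => ?_
      have htN := Finset.mem_powerset.1 ht
      have ht' : i ∉ t := fun h => hi (htN h)
      have hB : i ∉ N \ t := by simp [hi]
      have s1 : insert i N \ t = insert i (N \ t) := Finset.insert_sdiff_of_notMem N ht'
      rw [s1, if_neg hB, shuf_insert_right hB, sgn_split i htN]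
      simp only [inv', smul_mul_assoc, mul_smul_comm, smul_smul]
      congr 1
      have h1 := sgn_mul_sgn' ht'
      calc _ = shuf t (N \ t) * sgn i (N \ t) * (sgn i t * sgn' i t) := by ring
        _ = _ := by rw [h1]; ring

lemma mul_add_left (a b c : Kos n R) : mul (a + b) c = mul a c + mul b c := by
  funext N
  simp only [mul, Pi.add_apply, add_mul, smul_add, Finset.sum_add_distrib]

lemma mul_add_right (a b c : Kos n R) : mul a (b + c) = mul a b + mul a c := by
  funext N
  simp only [mul, Pi.add_apply, mul_add, smul_add, Finset.sum_add_distrib]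

lemma zero_mul' (c : Kos n R) : mul 0 c = 0 := by
  funext N; simp [mul]

lemma mul_zero' (c : Kos n R) : mul c 0 = 0 := by
  funext N; simp [mul]

lemma zsmul_mul (t : ℤ) (a b : Kos n R) : mul (t • a) b = t • mul a b := by
  funext N
  simp only [mul, Pi.smul_apply, Finset.smul_sum, smul_mul_assoc]
  refine Finset.sum_congr rfl fun A _ => ?_
  rw [smul_comm]

lemma mul_zsmul (t : ℤ) (a b : Kos n R) : mul a (t • b) = t • mul a b := by
  funext N
  simp only [mul, Pi.smul_apply, Finset.smul_sum, mul_smul_comm]
  refine Finset.sum_congr rfl fun A _ => ?_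
  rw [smul_comm]

lemma sum_mul' {ι : Type*} (s : Finset ι) (f : ι → Kos n R) (b : Kos n R) :
    mul (∑ i ∈ s, f i) b = ∑ i ∈ s, mul (f i) b := by
  classical
  induction s using Finset.induction_on with
  | empty => rw [Finset.sum_empty, Finset.sum_empty, zero_mul']
  | insert a s ha ih => rw [Finset.sum_insert ha, Finset.sum_insert ha, mul_add_left, ih]

lemma mul_sum' {ι : Type*} (s : Finset ι) (f : ι → Kos n R) (b : Kos n R) :
    mul b (∑ i ∈ s, f i) = ∑ i ∈ s, mul b (f i) := by
  classical
  induction s using Finset.induction_on with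
  | empty => rw [Finset.sum_empty, Finset.sum_empty, mul_zero']
  | insert a s ha ih => rw [Finset.sum_insert ha, Finset.sum_insert ha, mul_add_right, ih]

lemma leibniz' (x : Fin n → R) (a b : Kos n R) :
    d x (mul a b) = mul (d x a) b + mul (inv' a) (d x b) := by
  funext N
  rw [d_eq]
  simp only [iota_mul, Pi.add_apply, mul_add, Finset.sum_add_distrib]
  congr 1
  · simp only [mul, d_eq, Finset.mul_sum, Finset.sum_mul, Finset.smul_sum]
    rw [Finset.sum_comm]
    refine Finset.sum_congr rfl fun A _ => Finset.sum_congr rfl fun i _ => ?_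
    rw [mul_smul_comm, mul_assoc]
  · simp only [mul, d_eq, Finset.mul_sum, Finset.smul_sum]
    rw [Finset.sum_comm]
    refine Finset.sum_congr rfl fun A _ => Finset.sum_congr rfl fun i _ => ?_
    rw [mul_smul_comm]
    congr 1
    ring

lemma leibniz (x : Fin n → R) {p : ℕ} {a : Kos n R} (ha : InDeg p a) (b : Kos n R) :
    d x (mul a b) = mul (d x a) b + ((-1 : ℤ) ^ p) • mul a (d x b) := by
  rw [leibniz', inv'_of_inDeg ha, zsmul_mul]

lemma mul_assoc' (a b c : Kos n R) : mul (mul a b) c = mul a (mul b c) := by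
  funext N
  simp only [mul, Finset.sum_mul, Finset.mul_sum, Finset.smul_sum]
  rw [Finset.sum_sigma', Finset.sum_sigma']
  refine Finset.sum_bij' (fun q _ => ⟨q.2, q.1 \ q.2⟩) (fun q _ => ⟨q.1 ∪ q.2, q.1⟩)
    ?_ ?_ ?_ ?_ ?_
  · rintro ⟨D, A⟩ h
    simp only [mem_sigma, mem_powerset] at h ⊢
    exact ⟨h.2.trans h.1, Finset.sdiff_subset_sdiff h.1 (le_refl _)⟩
  · rintro ⟨A, B⟩ h
    simp only [mem_sigma, mem_powerset] at h ⊢
    exact ⟨Finset.union_subset h.1 (h.2.trans Finset.sdiff_subset), Finset.subset_union_left⟩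
  · rintro ⟨D, A⟩ h
    simp only [mem_sigma, mem_powerset] at h
    simp [Finset.union_sdiff_of_subset h.2]
  · rintro ⟨A, B⟩ h
    simp only [mem_sigma, mem_powerset] at h
    have hd : Disjoint A B := by
      rw [Finset.disjoint_left]
      intro j h1 h2
      exact (Finset.mem_sdiff.1 (h.2 h2)).2 h1
    simp only [Sigma.mk.injEq, heq_eq_eq, true_and]
    rw [Finset.union_sdiff_cancel_left hd]
  · rintro ⟨D, A⟩ h
    simp only [mem_sigma, mem_powerset] at h
    obtain ⟨hD, hA⟩ := h
    dsimp only
    have s1 : (N \ A) \ (D \ A) = N \ D := by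
      ext j; simp only [mem_sdiff, not_and, not_not]
      constructor
      · rintro ⟨⟨h1, h2⟩, h3⟩
        exact ⟨h1, fun h4 => h2 (h3 h4)⟩
      · rintro ⟨h1, h2⟩
        exact ⟨⟨h1, fun h3 => h2 (hA h3)⟩, fun h3 => absurd h3 h2⟩
    have s2 : D = A ∪ (D \ A) := (Finset.union_sdiff_of_subset hA).symm
    have s3 : N \ A = (D \ A) ∪ (N \ D) := by
      ext j; simp only [mem_sdiff, mem_union]
      constructor
      · rintro ⟨h1, h2⟩
        by_cases h3 : j ∈ D
        · exact Or.inl ⟨h3, h2⟩
        · exact Or.inr ⟨h1, h3⟩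
      · rintro (⟨h1, h2⟩ | ⟨h1, h2⟩)
        · exact ⟨hD h1, h2⟩
        · exact ⟨h1, fun h3 => h2 (hA h3)⟩
    have d1 : Disjoint A (D \ A) := Finset.disjoint_sdiff
    have d2 : Disjoint (D \ A) (N \ D) := by
      rw [Finset.disjoint_left]
      intro j h1 h2
      exact (Finset.mem_sdiff.1 h2).2 (Finset.mem_sdiff.1 h1).1
    have e1 : shuf D (N \ D) = shuf A (N \ D) * shuf (D \ A) (N \ D) := by
      have := shuf_union_left (C := N \ D) d1
      rwa [← s2] at this
    have e2 : shuf A (N \ A) = shuf A (D \ A) * shuf A (N \ D) := by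
      rw [s3, shuf_union_right d2]
    rw [s1, e1, e2]
    simp only [smul_mul_assoc, mul_smul_comm, smul_smul]
    rw [mul_assoc (a A)]
    congr 1
    ring

lemma inDeg_mul {p q : ℕ} {a b : Kos n R} (ha : InDeg p a) (hb : InDeg q b) :
    InDeg (p + q) (mul a b) := by
  intro N hN
  unfold mul
  apply Finset.sum_eq_zero
  intro A hA
  have hAN := Finset.mem_powerset.1 hA
  by_cases h1 : A.card = p
  · by_cases h2 : (N \ A).card = q
    · exfalso; apply hN
      rw [← Finset.card_sdiff_add_card_eq_card hAN]
      omega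
    · rw [hb _ h2, mul_zero, smul_zero]
  · rw [ha _ h1, zero_mul, smul_zero]

lemma inDeg_zsmul {p : ℕ} (t : ℤ) {a : Kos n R} (ha : InDeg p a) : InDeg p (t • a) := by
  intro N hN
  rw [Pi.smul_apply, ha N hN, smul_zero]

lemma inDeg_finsum {ι : Type*} {p : ℕ} (s : Finset ι) (f : ι → Kos n R)
    (h : ∀ i ∈ s, InDeg p (f i)) : InDeg p (∑ i ∈ s, f i) := by
  classical
  induction s using Finset.induction_on with
  | empty => rw [Finset.sum_empty]; exact InDeg.zero
  | insert a s ha ih =>
    rw [Finset.sum_insert ha]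
    exact (h a (Finset.mem_insert_self a s)).add
      (ih fun i hi => h i (Finset.mem_insert_of_mem hi))

/-! ### Wedge with `e_i` -/

/-- `e_i ∧ a` -/
def wedge (i : Fin n) (a : Kos n R) : Kos n R :=
  fun N => if i ∈ N then sgn i (N.erase i) • a (N.erase i) else 0

lemma d_wedge (x : Fin n → R) (i : Fin n) (a : Kos n R) (N : Finset (Fin n)) :
    d x (wedge i a) N + wedge i (d x a) N = x i * a N := by
  by_cases hi : i ∈ N
  · obtain ⟨M, hM, rfl⟩ : ∃ M, i ∉ M ∧ N = insert i M :=
      ⟨N.erase i, Finset.notMem_erase i N, (Finset.insert_erase hi).symm⟩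
    have hcompl : Mᶜ = insert i (insert i M)ᶜ := by
      ext j; simp only [mem_compl, mem_insert]
      constructor
      · intro h
        by_cases hj : j = i
        · exact Or.inl hj
        · exact Or.inr (by rintro (h' | h'); exacts [hj h', h h'])
      · rintro (rfl | h)
        · exact hM
        · exact fun h' => h (Or.inr h')
    simp only [wedge, if_pos hi, Finset.erase_insert hM]
    simp only [d]
    rw [hcompl, Finset.sum_insert (by simp), smul_add, smul_smul, sgn_mul_self, one_smul]
    have e1 : ∑ j ∈ (insert i M)ᶜ, sgn j (insert i M) • (x j * wedge i a (insert j (insert i M))) =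
        -(sgn i M • ∑ j ∈ (insert i M)ᶜ, sgn j M • (x j * a (insert j M))) := by
      rw [Finset.smul_sum, ← Finset.sum_neg_distrib]
      refine Finset.sum_congr rfl fun j hj => ?_
      have hj' : j ≠ i ∧ j ∉ M := by simpa using hj
      have s1 : (insert j (insert i M)).erase i = insert j M := by
        rw [Finset.erase_insert_of_ne hj'.1, Finset.erase_insert hM]
      unfold wedge
      rw [if_pos (by simp), s1, mul_smul_comm, smul_smul, smul_smul, ← neg_smul]
      congr 1
      have h3 := sgn_swap hj'.1.symm hM hj'.2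
      have h4 := sgn_mul_self i M
      have h5 := sgn_mul_self i (insert j M)
      calc sgn j (insert i M) * sgn i (insert j M)
          = (sgn i M * sgn i M) * (sgn j (insert i M) * sgn i (insert j M)) := by rw [h4, one_mul]
        _ = sgn i M * (sgn i M * sgn j (insert i M)) * sgn i (insert j M) := by ring
        _ = sgn i M * (-(sgn j M * sgn i (insert j M))) * sgn i (insert j M) := by rw [h3]
        _ = -(sgn i M * sgn j M) * (sgn i (insert j M) * sgn i (insert j M)) := by ring
        _ = _ := by rw [h5]; ring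
    rw [e1]
    ring
  · have e1 : wedge i (d x a) N = 0 := by simp [wedge, hi]
    rw [e1, add_zero]
    simp only [d, wedge]
    rw [Finset.sum_eq_single i]
    · rw [if_pos (Finset.mem_insert_self i N), Finset.erase_insert hi, mul_smul_comm, smul_smul,
        sgn_mul_self, one_smul]
    · intro j hj hji
      rw [if_neg, mul_zero, smul_zero]
      simp only [mem_insert, not_or]
      exact ⟨hji.symm, hi⟩
    · intro h
      exact absurd (by simpa using hi) h

lemma wedge_inDeg {p : ℕ} {a : Kos n R} (ha : InDeg p a) (i : Fin n) :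
    InDeg (p + 1) (wedge i a) := by
  intro N hN
  unfold wedge
  split_ifs with h
  · rw [ha (N.erase i), smul_zero]
    rw [Finset.card_erase_of_mem h]
    have := Finset.card_pos.2 ⟨i, h⟩
    omega
  · rfl

end Pool.Agent.R674.Golod
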