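import Mathlib

/-!
# Golod ideals

`k` is a field, `S = k[x_0, …, x_{n-1}]`, `I ⊆ (x_0, …, x_{n-1})²` an ideal, `R = S/I`.
`K^R` is the Koszul complex of `R` on the (minimal) generating set `x_0, …, x_{n-1}` of the maximal
ideal of `R`.  It is the exterior algebra `⊕_N R e_N`, `N ⊆ {0, …, n-1}`, where
`e_N = e_{i_1} ∧ … ∧ e_{i_p}` for `N = {i_1 < … < i_p}` sits in degree `p`, with
`e_A e_B = ± e_{A ∪ B}` for disjoint `A`, `B` (and `0` otherwise) and `d e_i = x_i`.
An element is given by its coefficient function `Finset (Fin n) → R`.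
-/

namespace Pool.Agent.R674.Golod

universe u

variable {n : ℕ}

/-- The sign `(-1)^{#{j ∈ N : j < i}}`. -/
def sgn (i : Fin n) (N : Finset (Fin n)) : ℤ := (-1) ^ (N.filter (fun j => j < i)).card

/-- The sign `(-1)^{#{(a, b) ∈ A × B : b < a}}`; thus `e_A ∧ e_B = shuf A B • e_{A ∪ B}` for disjoint
`A` and `B`. -/
def shuf (A B : Finset (Fin n)) : ℤ :=
  (-1) ^ ((A ×ˢ B).filter (fun p => p.2 < p.1)).card

/-- The underlying module of the Koszul complex: coefficient functions `N ↦ (coefficient of e_N)`. -/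
abbrev Kos (n : ℕ) (R : Type*) := Finset (Fin n) → R

variable {R : Type*} [CommRing R]

/-- `a` is homogeneous of (homological) degree `p`. -/
def InDeg (p : ℕ) (a : Kos n R) : Prop := ∀ N, N.card ≠ p → a N = 0

/-- The Koszul differential, `d e_N = ∑_{i ∈ N} (-1)^{#{j ∈ N : j < i}} x_i e_{N \ i}`. -/
def d (x : Fin n → R) (a : Kos n R) : Kos n R :=
  fun N => ∑ i ∈ Nᶜ, sgn i N • (x i * a (insert i N))

/-- The product of the Koszul algebra. -/
def mul (a b : Kos n R) : Kos n R :=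
  fun N => ∑ A ∈ N.powerset, shuf A (N \ A) • (a A * b (N \ A))

/-- The Koszul algebra `K(x; R)` (with `R` an algebra over the field `k`) has a *trivial Massey
operation*: there are a homogeneous `k`-basis of `H_{≥ 1}` (indexed in degree `i + 1` by `Λ i`) and a
function `μ` on the nonempty finite sequences of basis elements with
* `μ(h_1, …, h_m)` homogeneous of degree `|h_1| + … + |h_m| + m - 1`;
* `μ(h)` a cycle; the classes of the `μ(h)`, `h` of degree `i + 1`, are a basis of `H_{i+1}`;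
* `d μ(h_1, …, h_m) = ∑_{0 < j < m} \overline{μ(h_1, …, h_j)} μ(h_{j+1}, …, h_m)` for `m ≥ 2`,
  where `\overline{a} = (-1)^{|a| + 1} a`. -/
def HasTrivialMassey (k : Type u) [Field k] {R : Type u} [CommRing R] [Algebra k R]
    (x : Fin n → R) : Prop :=
  ∃ (Λ : ℕ → Type u) (μ : List (Σ i, Λ i) → Kos n R),
    (∀ L : List (Σ i, Λ i), L ≠ [] →
      InDeg ((L.map (fun l => l.1 + 1)).sum + L.length - 1) (μ L)) ∧
    (∀ l, d x (μ [l]) = 0) ∧
    (∀ (i : ℕ) (c : Λ i →₀ k),
      c.sum (fun l t => t • μ [⟨i, l⟩]) ∈ Set.range (d x) → c = 0) ∧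
    (∀ (i : ℕ) (a : Kos n R), InDeg (i + 1) a → d x a = 0 →
      ∃ c : Λ i →₀ k, a - c.sum (fun l t => t • μ [⟨i, l⟩]) ∈ Set.range (d x)) ∧
    (∀ L : List (Σ i, Λ i), 2 ≤ L.length →
      d x (μ L) = ∑ j ∈ Finset.Ico 1 L.length,
        ((-1 : ℤ) ^ (((L.take j).map (fun l => l.1 + 1)).sum + j)) •
          mul (μ (L.take j)) (μ (L.drop j)))

open MvPolynomial in
/-- An ideal `I ⊆ (x_0, …, x_{n-1})²` of `S = k[x_0, …, x_{n-1}]` is *Golod* if the Koszul complex
of `S/I` (on the images of the variables) has a trivial Massey operation. -/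
def IsGolod {k : Type u} [Field k] (I : Ideal (MvPolynomial (Fin n) k)) : Prop :=
  HasTrivialMassey k (R := MvPolynomial (Fin n) k ⧸ I) (fun i => Ideal.Quotient.mk I (X i))

end Pool.Agent.R674.Golod
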