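import Pool.Agent.R674.Golod.Kos

namespace Pool.Agent.R674.Golod

open Finset MvPolynomial

universe u

variable {n : ℕ} {k : Type u} [Field k]

/-! ### Monomial ideals -/

/-- The monomial ideal spanned by the monomials whose exponent satisfies `P`. -/
noncomputable def monId (k : Type u) [Field k] {n : ℕ} (P : (Fin n →₀ ℕ) → Prop) :
    Ideal (MvPolynomial (Fin n) k) :=
  Ideal.span ((fun s => monomial s (1 : k)) '' {s | P s})

lemma mem_monId {P : (Fin n →₀ ℕ) → Prop} (hP : ∀ s t, s ≤ t → P s → P t)
    {p : MvPolynomial (Fin n) k} : p ∈ monId k P ↔ ∀ s ∈ p.support, P s := by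
  unfold monId
  rw [mem_ideal_span_monomial_image]
  constructor
  · intro h s hs
    obtain ⟨t, ht, hts⟩ := h s hs
    exact hP t s hts ht
  · intro h s hs
    exact ⟨s, h s hs, le_refl _⟩

lemma monomial_mem_monId {P : (Fin n →₀ ℕ) → Prop} {s : Fin n →₀ ℕ} (hs : P s) (c : k) :
    monomial s c ∈ monId k P := by
  have h : monomial s (1 : k) ∈ monId k P := Ideal.subset_span ⟨s, hs, rfl⟩
  have : monomial s c = C c * monomial s (1 : k) := by rw [C_mul_monomial, mul_one]
  rw [this]
  exact Ideal.mul_mem_left _ _ h

lemma monId_mul_le {P Q T : (Fin n →₀ ℕ) → Prop} (h : ∀ s t, P s → Q t → T (s + t)) :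
    monId k P * monId k Q ≤ monId k T := by
  unfold monId
  rw [Ideal.span_mul_span', Ideal.span_le]
  rintro _ ⟨_, ⟨s, hs, rfl⟩, _, ⟨t, ht, rfl⟩, rfl⟩
  simp only [monomial_mul, mul_one, SetLike.mem_coe]
  exact Ideal.subset_span ⟨s + t, h s t hs ht, rfl⟩

lemma monId_mono {P Q : (Fin n →₀ ℕ) → Prop} (h : ∀ s, P s → Q s) : monId k P ≤ monId k Q :=
  Ideal.span_mono (Set.image_mono h)

/-! ### Multigraded components of the Koszul complex -/

/-- the exponent of `∏_{i ∈ N} x_i` -/
noncomputable def ind (N : Finset (Fin n)) : Fin n →₀ ℕ :=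
  Finsupp.equivFunOnFinite.symm (fun i => if i ∈ N then 1 else 0)

@[simp] lemma ind_apply (N : Finset (Fin n)) (i : Fin n) : ind N i = if i ∈ N then 1 else 0 := rfl

open Classical in
/-- the component of multidegree `m` -/
noncomputable def comp (m : Fin n →₀ ℕ) (z : Kos n (MvPolynomial (Fin n) k)) :
    Kos n (MvPolynomial (Fin n) k) :=
  fun N => if ind N ≤ m then monomial (m - ind N) (coeff (m - ind N) (z N)) else 0

lemma comp_inDeg {p : ℕ} {z : Kos n (MvPolynomial (Fin n) k)} (hz : InDeg p z)
    (m : Fin n →₀ ℕ) : InDeg p (comp m z) := by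
  intro N hN
  unfold comp
  rw [hz N hN]
  simp

lemma sum_comp (z : Kos n (MvPolynomial (Fin n) k)) :
    ∃ T : Finset (Fin n →₀ ℕ), ∀ N, z N = ∑ m ∈ T, comp m z N := by
  classical
  refine ⟨univ.biUnion (fun N => (z N).support.image (fun s => s + ind N)), fun N => ?_⟩
  ext s
  rw [coeff_sum]
  have h1 : ∀ m : Fin n →₀ ℕ, coeff s (comp m z N) =
      if m = s + ind N then coeff s (z N) else 0 := by
    intro m
    unfold comp
    split_ifs with h2 h3 h3
    · subst h3; simp
    · rw [coeff_monomial, if_neg]
      intro h4
      apply h3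
      rw [← h4, tsub_add_cancel_of_le h2]
    · exfalso; apply h2; rw [h3]; exact le_add_self
    · simp
  simp only [h1]
  rw [Finset.sum_ite_eq']
  split_ifs with h2
  · rfl
  · by_contra h3
    apply h2
    simp only [mem_biUnion, mem_univ, true_and, mem_image]
    exact ⟨N, s, by rwa [mem_support_iff], rfl⟩

lemma comp_d (m : Fin n →₀ ℕ) (z : Kos n (MvPolynomial (Fin n) k)) :
    d X (comp m z) = comp m (d X z) := by
  classical
  funext N
  simp only [d, comp]
  by_cases h : ind N ≤ m
  · rw [if_pos h, coeff_sum, map_sum]
    refine Finset.sum_congr rfl fun i hi => ?_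
    have hi' : i ∉ N := by simpa using hi
    have e1 : coeff (m - ind N) (sgn i N • (X i * z (insert i N))) =
        sgn i N • coeff (m - ind N) (X i * z (insert i N)) := by
      rw [coeff_smul]
    rw [e1, map_zsmul]
    congr 1
    rw [coeff_X_mul']
    have hmi : (m - ind N) i = m i := by simp [hi']
    by_cases h0 : m i = 0
    · have h2 : ¬ ind (insert i N) ≤ m := by
        intro h3
        have := h3 i
        simp [h0] at this
      rw [if_neg h2, if_neg, mul_zero, map_zero]
      simp [h0]
    · have h2 : ind (insert i N) ≤ m := by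
        intro j
        have := h j
        simp only [ind_apply, mem_insert] at this ⊢
        by_cases hj : j = i
        · subst hj; simp; omega
        · simpa [hj] using this
      have h3 : i ∈ (m - ind N).support := by
        rw [Finsupp.mem_support_iff, hmi]; exact h0
      rw [if_pos h2, if_pos h3]
      have h4 : m - ind (insert i N) = m - ind N - Finsupp.single i 1 := by
        ext j
        simp only [Finsupp.tsub_apply, ind_apply, mem_insert, Finsupp.single_apply]
        by_cases hj : j = i
        · subst hj; simp [hi']
        · simp [hj, Ne.symm hj]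
      rw [h4, X, monomial_mul, one_mul]
      congr 1
      rw [add_comm, tsub_add_cancel_of_le]
      rw [Finsupp.single_le_iff, hmi]
      omega
  · rw [if_neg h]
    apply Finset.sum_eq_zero
    intro i hi
    rw [if_neg, mul_zero, smul_zero]
    intro h2
    apply h
    refine le_trans ?_ h2
    intro j
    simp only [ind_apply, mem_insert]
    split_ifs <;> simp_all

/-- `e_i ∧ ∂/∂x_i` -/
noncomputable def del (i : Fin n) (z : Kos n (MvPolynomial (Fin n) k)) :
    Kos n (MvPolynomial (Fin n) k) :=
  fun N => if i ∈ N then sgn i (N.erase i) • pderiv i (z (N.erase i)) else 0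

lemma del_inDeg {p : ℕ} {z : Kos n (MvPolynomial (Fin n) k)} (hz : InDeg p z)
    (i : Fin n) : InDeg (p + 1) (del i z) := by
  intro N hN
  unfold del
  split_ifs with h
  · rw [hz (N.erase i), map_zero, smul_zero]
    rw [Finset.card_erase_of_mem h]
    have := Finset.card_pos.2 ⟨i, h⟩
    omega
  · rfl

lemma homotopy (i : Fin n) (z : Kos n (MvPolynomial (Fin n) k)) (N : Finset (Fin n)) :
    d X (del i z) N + del i (d X z) N =
      X i * pderiv i (z N) + (if i ∈ N then z N else 0) := by
  by_cases hi : i ∈ N
  · rw [if_pos hi]
    have hM : i ∉ N.erase i := Finset.notMem_erase i N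
    have hNM : insert i (N.erase i) = N := Finset.insert_erase hi
    have e1 : del i (d X z) N = sgn i (N.erase i) •
        (sgn i (N.erase i) • (z N + X i * pderiv i (z N)) +
          ∑ j ∈ Nᶜ, sgn j (N.erase i) • (X j * pderiv i (z (insert j (N.erase i))))) := by
      unfold del
      rw [if_pos hi]
      congr 1
      simp only [d, map_sum]
      have h1 : (N.erase i)ᶜ = insert i Nᶜ := by
        ext j; simp only [mem_compl, mem_erase, mem_insert]; tauto
      rw [h1, Finset.sum_insert (by simpa using hi)]
      congr 1
      · rw [map_zsmul, Derivation.leibniz, hNM]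
        congr 1
        simp only [smul_eq_mul, pderiv_X_self, mul_one]
        ring
      · refine Finset.sum_congr rfl fun j hj => ?_
        have hji : j ≠ i := by
          rintro rfl; simp [hi] at hj
        rw [map_zsmul, Derivation.leibniz]
        congr 1
        rw [pderiv_X_of_ne hji, smul_zero, add_zero, smul_eq_mul]
    have e2 : d X (del i z) N =
        ∑ j ∈ Nᶜ, (sgn j N * sgn i (insert j (N.erase i))) •
          (X j * pderiv i (z (insert j (N.erase i)))) := by
      simp only [d, del]
      refine Finset.sum_congr rfl fun j hj => ?_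
      have hj' : j ∉ N := by simpa using hj
      have hji : j ≠ i := by rintro rfl; exact hj' hi
      rw [if_pos (Finset.mem_insert_of_mem hi)]
      have h2 : (insert j N).erase i = insert j (N.erase i) :=
        Finset.erase_insert_of_ne hji
      rw [h2, mul_smul_comm, smul_smul]
    rw [e1, e2, smul_add, smul_smul, sgn_mul_self, one_smul, Finset.smul_sum]
    have e3 : ∀ j ∈ Nᶜ, sgn i (N.erase i) • sgn j (N.erase i) •
        (X j * pderiv i (z (insert j (N.erase i)))) =
        -((sgn j N * sgn i (insert j (N.erase i))) •
          (X j * pderiv i (z (insert j (N.erase i))))) := by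
      intro j hj
      have hj' : j ∉ N := by simpa using hj
      have hji : j ≠ i := by rintro rfl; exact hj' hi
      have hjM : j ∉ N.erase i := fun h => hj' (Finset.mem_of_mem_erase h)
      rw [smul_smul, ← neg_smul]
      congr 1
      have h3 := sgn_swap hji.symm hM hjM
      rw [hNM] at h3
      -- sgn i M * sgn j N = -(sgn j M * sgn i (insert j M))
      have h4 := sgn_mul_self i (N.erase i)
      have h5 := sgn_mul_self j (N.erase i)
      calc sgn i (N.erase i) * sgn j (N.erase i)
          = sgn i (N.erase i) * sgn j (N.erase i) * 1 := by ring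
        _ = sgn i (N.erase i) * sgn j (N.erase i) *
            (sgn i (insert j (N.erase i)) * sgn i (insert j (N.erase i))) := by
              rw [sgn_mul_self]
        _ = sgn i (N.erase i) * (sgn j (N.erase i) * sgn i (insert j (N.erase i))) *
            sgn i (insert j (N.erase i)) := by ring
        _ = sgn i (N.erase i) * (-(sgn i (N.erase i) * sgn j N)) *
            sgn i (insert j (N.erase i)) := by rw [h3]; ring
        _ = -((sgn i (N.erase i) * sgn i (N.erase i)) * (sgn j N * sgn i (insert j (N.erase i)))) := by
            ring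
        _ = _ := by rw [h4]; ring
    rw [Finset.sum_congr rfl e3, Finset.sum_neg_distrib]
    ring
  · rw [if_neg hi, add_zero]
    have e1 : del i (d X z) N = 0 := by simp [del, hi]
    rw [e1, add_zero]
    simp only [d, del]
    rw [Finset.sum_eq_single i]
    · rw [if_pos (Finset.mem_insert_self i N), Finset.erase_insert hi, mul_smul_comm, smul_smul,
        sgn_mul_self, one_smul]
    · intro j hj hji
      rw [if_neg, mul_zero, smul_zero]
      simp only [mem_insert, not_or]
      exact ⟨hji.symm, hi⟩
    · intro h
      exact absurd (by simpa using hi) h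

lemma euler_comp (i : Fin n) (m : Fin n →₀ ℕ) (z : Kos n (MvPolynomial (Fin n) k))
    (N : Finset (Fin n)) :
    X i * pderiv i (comp m z N) + (if i ∈ N then comp m z N else 0) =
      (m i : k) • comp m z N := by
  classical
  unfold comp
  by_cases h : ind N ≤ m
  · simp only [if_pos h]
    rw [pderiv_monomial]
    have hi := h i
    simp only [ind_apply] at hi
    have e1 : X i * monomial (m - ind N - Finsupp.single i 1)
        (coeff (m - ind N) (z N) * (((m - ind N) i : ℕ) : k)) =
        monomial (m - ind N) (coeff (m - ind N) (z N) * (((m - ind N) i : ℕ) : k)) := by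
      by_cases h0 : (m - ind N) i = 0
      · rw [h0]; simp
      · rw [X, monomial_mul, one_mul]
        congr 1
        rw [add_comm, tsub_add_cancel_of_le]
        rw [Finsupp.single_le_iff]; omega
    rw [e1]
    by_cases hiN : i ∈ N
    · simp only [if_pos hiN] at hi ⊢
      rw [← map_add, smul_monomial]
      congr 1
      have : m i = (m - ind N) i + 1 := by simp [hiN]; omega
      rw [this]
      push_cast
      rw [smul_eq_mul]; ring
    · simp only [if_neg hiN]
      rw [add_zero, smul_monomial]
      congr 1
      have : m i = (m - ind N) i := by simp [hiN]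
      rw [← this, smul_eq_mul, mul_comm]
  · simp [if_neg h]

end Pool.Agent.R674.Golod
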