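import Pool.Agent.R674.Golod.MinMult
import Pool.Agent.R674.Golod.Mon

/-! The ideal of 2-permanents of the generic 4 × 5 Hankel matrix. -/

namespace Pool.Agent.R674.Golod

open Finset MvPolynomial

universe u

/-- The ideal generated by the permanents `ad + bc` of all `2 × 2` submatrices of `M`. -/
def perm2 {m n : ℕ} {A : Type*} [CommRing A] (M : Matrix (Fin m) (Fin n) A) : Ideal A :=
  Ideal.span {p | ∃ (i j : Fin m) (a b : Fin n), i < j ∧ a < b ∧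
    p = M i a * M j b + M i b * M j a}

/-- The generic `m × n` Hankel matrix, with the variable `y_{i + j}` (numbered from `0`) in
position `(i, j)`, `0 ≤ i < m`, `0 ≤ j < n`. -/
noncomputable def hankel (k : Type*) [CommRing k] (m n : ℕ) :
    Matrix (Fin m) (Fin n) (MvPolynomial (Fin (m + n - 1)) k) :=
  fun i j => X ⟨(i : ℕ) + (j : ℕ), by omega⟩

variable {k : Type u} [Field k]

/-- the ideal for the 4 × 5 Hankel matrix -/
noncomputable def HI (k : Type u) [Field k] : Ideal (MvPolynomial (Fin 8) k) := perm2 (hankel k 4 5)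

lemma rel (p q r s : Fin 8) (h : ∃ (i j : Fin 4) (a b : Fin 5), i < j ∧ a < b ∧
    (p : ℕ) = i + a ∧ (q : ℕ) = j + b ∧
    (((r : ℕ) = i + b ∧ (s : ℕ) = j + a) ∨ ((s : ℕ) = i + b ∧ (r : ℕ) = j + a))) :
    (X p * X q + X r * X s : MvPolynomial (Fin 8) k) ∈ HI k := by
  obtain ⟨i, j, a, b, h1, h2, h3, h4, h5⟩ := h
  have b1 : (i : ℕ) + a < 8 := by omega
  have b2 : (j : ℕ) + b < 8 := by omega
  have b3 : (i : ℕ) + b < 8 := by omega
  have b4 : (j : ℕ) + a < 8 := by omega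
  have hp : p = ⟨(i : ℕ) + a, b1⟩ := Fin.ext h3
  have hq : q = ⟨(j : ℕ) + b, b2⟩ := Fin.ext h4
  have h6 : (X p * X q + X r * X s : MvPolynomial (Fin 8) k) =
      X (⟨(i : ℕ) + a, b1⟩ : Fin 8) * X (⟨(j : ℕ) + b, b2⟩ : Fin 8) +
      X (⟨(i : ℕ) + b, b3⟩ : Fin 8) * X (⟨(j : ℕ) + a, b4⟩ : Fin 8) := by
    rw [hp, hq]
    rcases h5 with ⟨h5, h6⟩ | ⟨h5, h6⟩
    · have hr : r = ⟨(i : ℕ) + b, b3⟩ := Fin.ext h5
      have hs : s = ⟨(j : ℕ) + a, b4⟩ := Fin.ext h6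
      rw [hr, hs]
    · have hr : r = ⟨(j : ℕ) + a, b4⟩ := Fin.ext h6
      have hs : s = ⟨(i : ℕ) + b, b3⟩ := Fin.ext h5
      rw [hr, hs]; ring
  rw [h6]
  exact Ideal.subset_span ⟨i, j, a, b, h1, h2, rfl⟩

lemma two_cancel (h2 : (2 : k) ≠ 0) {I : Ideal (MvPolynomial (Fin 8) k)}
    {u : MvPolynomial (Fin 8) k} (h : u + u ∈ I) : u ∈ I := by
  have e : u = C ((2 : k)⁻¹) * (u + u) := by
    rw [← two_mul, ← mul_assoc, show (2 : MvPolynomial (Fin 8) k) = C 2 from (map_ofNat C 2).symm,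
      ← C_mul, inv_mul_cancel₀ h2, C_1, one_mul]
  rw [e]
  exact I.mul_mem_left _ h

lemma tri (h2 : (2 : k) ≠ 0) {I : Ideal (MvPolynomial (Fin 8) k)}
    {u v w : MvPolynomial (Fin 8) k} (h : u + v ∈ I) (h' : v + w ∈ I) (h'' : u + w ∈ I) :
    u ∈ I ∧ v ∈ I ∧ w ∈ I := by
  have hu : u ∈ I := by
    apply two_cancel h2
    have := I.sub_mem (I.add_mem h h'') h'
    convert this using 1; ring
  refine ⟨hu, ?_, ?_⟩
  · have := I.sub_mem h hu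
    convert this using 1; ring
  · have := I.sub_mem h'' hu
    convert this using 1; ring

lemma pend {I : Ideal (MvPolynomial (Fin 8) k)}
    {u v : MvPolynomial (Fin 8) k} (h : u + v ∈ I) (h' : v ∈ I) : u ∈ I := by
  have := I.sub_mem h h'
  convert this using 1; ring

lemma mid' (h2 : (2 : k) ≠ 0) (a b : Fin 8) (hab : a ≤ b) (h3 : 4 ≤ (a : ℕ) + b)
    (h4 : (a : ℕ) + b ≤ 10) : (X a * X b : MvPolynomial (Fin 8) k) ∈ HI k := by
  obtain ⟨m04, m13, m22⟩ := tri h2 (rel (k := k) 0 4 1 3 (by decide)) (rel (k := k) 1 3 2 2 (by decide)) (rel (k := k) 0 4 2 2 (by decide))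
  obtain ⟨m05, m14, m23⟩ := tri h2 (rel (k := k) 0 5 1 4 (by decide)) (rel (k := k) 1 4 2 3 (by decide)) (rel (k := k) 0 5 2 3 (by decide))
  obtain ⟨m15, m24, m33⟩ := tri h2 (rel (k := k) 1 5 2 4 (by decide)) (rel (k := k) 2 4 3 3 (by decide)) (rel (k := k) 1 5 3 3 (by decide))
  obtain ⟨m16, m25, m34⟩ := tri h2 (rel (k := k) 1 6 2 5 (by decide)) (rel (k := k) 2 5 3 4 (by decide)) (rel (k := k) 1 6 3 4 (by decide))
  obtain ⟨m26, m35, m44⟩ := tri h2 (rel (k := k) 2 6 3 5 (by decide)) (rel (k := k) 3 5 4 4 (by decide)) (rel (k := k) 2 6 4 4 (by decide))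
  obtain ⟨m27, m36, m45⟩ := tri h2 (rel (k := k) 2 7 3 6 (by decide)) (rel (k := k) 3 6 4 5 (by decide)) (rel (k := k) 2 7 4 5 (by decide))
  obtain ⟨m37, m46, m55⟩ := tri h2 (rel (k := k) 3 7 4 6 (by decide)) (rel (k := k) 4 6 5 5 (by decide)) (rel (k := k) 3 7 5 5 (by decide))
  have m06 := pend (rel (k := k) 0 6 2 4 (by decide)) m24
  have m07 := pend (rel (k := k) 0 7 3 4 (by decide)) m34
  have m17 := pend (rel (k := k) 1 7 3 5 (by decide)) m35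
  have key : ∀ a b : Fin 8, a ≤ b → 4 ≤ (a : ℕ) + b → (a : ℕ) + b ≤ 10 → (a = 0 ∧ b = 4) ∨ (a = 0 ∧ b = 5) ∨ (a = 0 ∧ b = 6) ∨ (a = 0 ∧ b = 7) ∨ (a = 1 ∧ b = 3) ∨ (a = 1 ∧ b = 4) ∨ (a = 1 ∧ b = 5) ∨ (a = 1 ∧ b = 6) ∨ (a = 1 ∧ b = 7) ∨ (a = 2 ∧ b = 2) ∨ (a = 2 ∧ b = 3) ∨ (a = 2 ∧ b = 4) ∨ (a = 2 ∧ b = 5) ∨ (a = 2 ∧ b = 6) ∨ (a = 2 ∧ b = 7) ∨ (a = 3 ∧ b = 3) ∨ (a = 3 ∧ b = 4) ∨ (a = 3 ∧ b = 5) ∨ (a = 3 ∧ b = 6) ∨ (a = 3 ∧ b = 7) ∨ (a = 4 ∧ b = 4) ∨ (a = 4 ∧ b = 5) ∨ (a = 4 ∧ b = 6) ∨ (a = 5 ∧ b = 5) := by decide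
  rcases key a b hab h3 h4 with ⟨rfl, rfl⟩ | ⟨rfl, rfl⟩ | ⟨rfl, rfl⟩ | ⟨rfl, rfl⟩ | ⟨rfl, rfl⟩ | ⟨rfl, rfl⟩ | ⟨rfl, rfl⟩ | ⟨rfl, rfl⟩ | ⟨rfl, rfl⟩ | ⟨rfl, rfl⟩ | ⟨rfl, rfl⟩ | ⟨rfl, rfl⟩ | ⟨rfl, rfl⟩ | ⟨rfl, rfl⟩ | ⟨rfl, rfl⟩ | ⟨rfl, rfl⟩ | ⟨rfl, rfl⟩ | ⟨rfl, rfl⟩ | ⟨rfl, rfl⟩ | ⟨rfl, rfl⟩ | ⟨rfl, rfl⟩ | ⟨rfl, rfl⟩ | ⟨rfl, rfl⟩ | ⟨rfl, rfl⟩
  · exact m04
  · exact m05
  · exact m06
  · exact m07
  · exact m13
  · exact m14
  · exact m15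
  · exact m16
  · exact m17
  · exact m22
  · exact m23
  · exact m24
  · exact m25
  · exact m26
  · exact m27
  · exact m33
  · exact m34
  · exact m35
  · exact m36
  · exact m37
  · exact m44
  · exact m45
  · exact m46
  · exact m55

lemma mid (h2 : (2 : k) ≠ 0) (a b : Fin 8) (h3 : 4 ≤ (a : ℕ) + b)
    (h4 : (a : ℕ) + b ≤ 10) : (X a * X b : MvPolynomial (Fin 8) k) ∈ HI k := by
  rcases le_total a b with h | h
  · exact mid' h2 a b h h3 h4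
  · rw [mul_comm]; exact mid' h2 b a h (by omega) (by omega)

lemma red (h2 : (2 : k) ≠ 0) (i j : Fin 8) : ∃ (c : k) (l : Fin 8),
    (X i * X j - (X 0 + X 7) * (C c * X l) : MvPolynomial (Fin 8) k) ∈ HI k := by
  have key : ∀ i j : Fin 8, (4 ≤ (i : ℕ) + j ∧ (i : ℕ) + j ≤ 10) ∨ (i = 0 ∧ (j : ℕ) ≤ 3) ∨
      (j = 0 ∧ (i : ℕ) ≤ 3) ∨ (i = 7 ∧ 4 ≤ (j : ℕ)) ∨ (j = 7 ∧ 4 ≤ (i : ℕ)) ∨ (i = 1 ∧ j = 1) ∨
      (i = 1 ∧ j = 2) ∨ (i = 2 ∧ j = 1) ∨ (i = 6 ∧ j = 6) ∨ (i = 6 ∧ j = 5) ∨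
      (i = 5 ∧ j = 6) := by decide
  have e0 : ((0 : Fin 8) : ℕ) = 0 := rfl
  have e7 : ((7 : Fin 8) : ℕ) = 7 := rfl
  rcases key i j with ⟨h3, h4⟩ | ⟨rfl, h3⟩ | ⟨rfl, h3⟩ | ⟨rfl, h3⟩ | ⟨rfl, h3⟩ | ⟨rfl, rfl⟩ |
    ⟨rfl, rfl⟩ | ⟨rfl, rfl⟩ | ⟨rfl, rfl⟩ | ⟨rfl, rfl⟩ | ⟨rfl, rfl⟩
  · refine ⟨0, 0, ?_⟩
    rw [C_0, zero_mul, mul_zero, sub_zero]
    exact mid h2 i j h3 h4
  · refine ⟨1, j, ?_⟩
    have := neg_mem (mid h2 7 j (by omega) (by omega))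
    convert this using 1; rw [C_1]; ring
  · refine ⟨1, i, ?_⟩
    have := neg_mem (mid h2 7 i (by omega) (by omega))
    convert this using 1; rw [C_1]; ring
  · refine ⟨1, j, ?_⟩
    have := neg_mem (mid h2 0 j (by omega) (by omega))
    convert this using 1; rw [C_1]; ring
  · refine ⟨1, i, ?_⟩
    have := neg_mem (mid h2 0 i (by omega) (by omega))
    convert this using 1; rw [C_1]; ring
  · refine ⟨-1, 2, ?_⟩
    have := Ideal.add_mem _ (rel (k := k) 0 2 1 1 (by decide)) (mid h2 7 2 (by decide) (by decide))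
    convert this using 1; rw [C_neg, C_1]; ring
  · refine ⟨-1, 3, ?_⟩
    have := Ideal.add_mem _ (rel (k := k) 0 3 1 2 (by decide)) (mid h2 7 3 (by decide) (by decide))
    convert this using 1; rw [C_neg, C_1]; ring
  · refine ⟨-1, 3, ?_⟩
    have := Ideal.add_mem _ (rel (k := k) 0 3 1 2 (by decide)) (mid h2 7 3 (by decide) (by decide))
    convert this using 1; rw [C_neg, C_1]; ring
  · refine ⟨-1, 5, ?_⟩
    have := Ideal.add_mem _ (rel (k := k) 5 7 6 6 (by decide)) (mid h2 0 5 (by decide) (by decide))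
    convert this using 1; rw [C_neg, C_1]; ring
  · refine ⟨-1, 4, ?_⟩
    have := Ideal.add_mem _ (rel (k := k) 4 7 5 6 (by decide)) (mid h2 0 4 (by decide) (by decide))
    convert this using 1; rw [C_neg, C_1]; ring
  · refine ⟨-1, 4, ?_⟩
    have := Ideal.add_mem _ (rel (k := k) 4 7 5 6 (by decide)) (mid h2 0 4 (by decide) (by decide))
    convert this using 1; rw [C_neg, C_1]; ring

/-! ### Two homomorphisms to `k[T][U]` -/

/-- signs -/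
def sg (k : Type u) [Field k] : ℕ → k
  | 0 => 1
  | 1 => 1
  | 2 => -1
  | 3 => 1
  | _ => 0

/-- `X_m ↦ σ(e m) T^{e m} U` -/
noncomputable def Phi (k : Type u) [Field k] (e : Fin 8 → ℕ) :
    MvPolynomial (Fin 8) k →ₐ[k] Polynomial (Polynomial k) :=
  aeval (fun m => Polynomial.C (Polynomial.C (sg k (e m)) * Polynomial.X ^ (e m)) * Polynomial.X)

lemma Phi_X (e : Fin 8 → ℕ) (m : Fin 8) : Phi k e (X m) =
    Polynomial.C (Polynomial.C (sg k (e m)) * Polynomial.X ^ (e m)) * Polynomial.X := by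
  rw [Phi, aeval_X]

lemma A_mul (a b : k) (m l : ℕ) :
    (Polynomial.C (Polynomial.C a * Polynomial.X ^ m) * Polynomial.X) *
      (Polynomial.C (Polynomial.C b * Polynomial.X ^ l) * Polynomial.X) =
    (Polynomial.C (Polynomial.C (a * b) * Polynomial.X ^ (m + l)) * Polynomial.X ^ 2 :
      Polynomial (Polynomial k)) := by
  rw [Polynomial.C_mul (a := a) (b := b), pow_add, mul_mul_mul_comm, ← Polynomial.C_mul, ← sq]
  congr 2
  ring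

lemma A_add (a b : k) (m : ℕ) :
    (Polynomial.C (Polynomial.C a * Polynomial.X ^ m) * Polynomial.X ^ 2) +
      (Polynomial.C (Polynomial.C b * Polynomial.X ^ m) * Polynomial.X ^ 2) =
    (Polynomial.C (Polynomial.C (a + b) * Polynomial.X ^ m) * Polynomial.X ^ 2 :
      Polynomial (Polynomial k)) := by
  rw [← add_mul, ← Polynomial.C_add, ← add_mul, ← Polynomial.C_add]

lemma Phi_gen (e : Fin 8 → ℕ) (p q r s : Fin 8) (h2 : e p + e q = e r + e s)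
    (h3 : e p + e q ≤ 3 → sg k (e p) * sg k (e q) + sg k (e r) * sg k (e s) = 0) :
    Polynomial.C (Polynomial.X ^ 4) ∣ Phi k e (X p * X q + X r * X s) := by
  have h4 : Phi k e (X p * X q + X r * X s) =
      Polynomial.C (Polynomial.C (sg k (e p) * sg k (e q) + sg k (e r) * sg k (e s)) *
        Polynomial.X ^ (e p + e q)) * Polynomial.X ^ 2 := by
    rw [map_add (Phi k e), map_mul (Phi k e), map_mul (Phi k e), Phi_X, Phi_X, Phi_X, Phi_X,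
      A_mul, A_mul, ← h2, A_add]
  rw [h4]
  by_cases h5 : e p + e q ≤ 3
  · rw [h3 h5, Polynomial.C_0, zero_mul, Polynomial.C_0, zero_mul]
    exact dvd_zero _
  · refine Dvd.dvd.mul_right ?_ _
    refine map_dvd Polynomial.C ?_
    exact Dvd.dvd.mul_left (pow_dvd_pow _ (by omega)) _

lemma Phi_mem (e : Fin 8 → ℕ) (he : ∀ (i j : Fin 4) (a b : Fin 5), i < j → a < b →
    ∀ (p q r s : Fin 8), (p : ℕ) = i + a → (q : ℕ) = j + b → (r : ℕ) = i + b → (s : ℕ) = j + a →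
    e p + e q = e r + e s ∧
      (e p + e q ≤ 3 → sg k (e p) * sg k (e q) + sg k (e r) * sg k (e s) = 0))
    {f : MvPolynomial (Fin 8) k} (hf : f ∈ HI k) :
    Polynomial.C (Polynomial.X ^ 4) ∣ Phi k e f := by
  have h1 : HI k ≤ (Ideal.span {(Polynomial.C (Polynomial.X ^ 4) :
      Polynomial (Polynomial k))}).comap (Phi k e) := by
    unfold HI perm2
    rw [Ideal.span_le]
    rintro _ ⟨i, j, a, b, hij, hab, rfl⟩
    simp only [SetLike.mem_coe, Ideal.mem_comap, Ideal.mem_span_singleton]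
    have b1 : (i : ℕ) + a < 8 := by omega
    have b2 : (j : ℕ) + b < 8 := by omega
    have b3 : (i : ℕ) + b < 8 := by omega
    have b4 : (j : ℕ) + a < 8 := by omega
    obtain ⟨h2, h3⟩ := he i j a b hij hab ⟨(i : ℕ) + a, b1⟩ ⟨(j : ℕ) + b, b2⟩
      ⟨(i : ℕ) + b, b3⟩ ⟨(j : ℕ) + a, b4⟩ rfl rfl rfl rfl
    exact Phi_gen e _ _ _ _ h2 h3
  have := h1 hf
  rwa [Ideal.mem_comap, Ideal.mem_span_singleton] at this

lemma coeff_zero_of_dvd {P : Polynomial (Polynomial k)} (h : Polynomial.C (Polynomial.X ^ 4) ∣ P)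
    (c j : ℕ) (hj : j < 4) : (P.coeff c).coeff j = 0 := by
  obtain ⟨Q, rfl⟩ := h
  rw [Polynomial.coeff_C_mul, Polynomial.coeff_X_pow_mul', if_neg (by omega)]

end Pool.Agent.R674.Golod
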