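import Pool.Agent.R674.Golod.Hankel

namespace Pool.Agent.R674.Golod

open Finset MvPolynomial

universe u

variable {k : Type u} [Field k]

noncomputable def fam (k : Type u) [Field k] (q : ℕ × Fin 8) : MvPolynomial (Fin 8) k :=
  (X 0 + X 7) ^ q.1 * X q.2

noncomputable def GG (k : Type u) [Field k] : Submodule k (MvPolynomial (Fin 8) k) :=
  Submodule.span k (Set.range (fam k)) ⊔ (HI k).restrictScalars k

lemma GG_X (h2 : (2 : k) ≠ 0) (j : Fin 8) (g : MvPolynomial (Fin 8) k) (hg : g ∈ GG k) :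
    X j * g ∈ GG k := by
  have h : GG k ≤ (GG k).comap (LinearMap.mulLeft k (X j)) := by
    conv_lhs => unfold GG
    refine sup_le ?_ ?_
    · rw [Submodule.span_le]
      rintro _ ⟨⟨c, i⟩, rfl⟩
      simp only [SetLike.mem_coe, Submodule.mem_comap, LinearMap.mulLeft_apply]
      obtain ⟨a, l, hal⟩ := red h2 j i
      have e : X j * fam k (c, i) = a • fam k (c + 1, l) +
          (X 0 + X 7) ^ c * (X j * X i - (X 0 + X 7) * (C a * X l)) := by
        unfold fam
        dsimp only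
        rw [smul_eq_C_mul]
        ring
      rw [e]
      refine Submodule.add_mem _ ?_ ?_
      · exact Submodule.smul_mem _ _ (Submodule.mem_sup_left (Submodule.subset_span ⟨_, rfl⟩))
      · exact Submodule.mem_sup_right ((HI k).mul_mem_left _ hal)
    · intro f hf
      simp only [Submodule.mem_comap, LinearMap.mulLeft_apply]
      exact Submodule.mem_sup_right ((HI k).mul_mem_left _ hf)
  exact h hg

lemma GG_mul (h2 : (2 : k) ≠ 0) (f : MvPolynomial (Fin 8) k) :
    ∀ g ∈ GG k, f * g ∈ GG k := by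
  induction f using MvPolynomial.induction_on with
  | C a =>
    intro g hg
    rw [← smul_eq_C_mul]
    exact Submodule.smul_mem _ _ hg
  | add p q hp hq =>
    intro g hg
    rw [add_mul]
    exact Submodule.add_mem _ (hp g hg) (hq g hg)
  | mul_X p j hp =>
    intro g hg
    rw [mul_assoc]
    exact hp _ (GG_X h2 j g hg)

lemma vars_le_GG (h2 : (2 : k) ≠ 0) (p : MvPolynomial (Fin 8) k) (hp : p ∈ idealOfVars (Fin 8) k) :
    p ∈ GG k := by
  refine Submodule.span_induction (p := fun x _ => x ∈ GG k) ?_ ?_ ?_ ?_ hp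
  · rintro _ ⟨i, rfl⟩
    apply Submodule.mem_sup_left
    exact Submodule.subset_span ⟨(0, i), by simp [fam]⟩
  · exact Submodule.zero_mem _
  · intro x y _ _ hx hy
    exact Submodule.add_mem _ hx hy
  · intro a x _ hx
    exact GG_mul h2 a x hx

lemma sg_ne_zero {j : ℕ} (hj : j < 4) : sg k j ≠ 0 := by
  interval_cases j <;> simp [sg]

lemma extract (e : Fin 8 → ℕ) (he : Function.Injective e) (hθ : Phi k e (X 0 + X 7) = Polynomial.X)
    (w : ℕ × Fin 8 →₀ k)
    (hdvd : Polynomial.C (Polynomial.X ^ 4) ∣ Phi k e ((X 0 + X 7) * w.sum fun q t => t • fam k q))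
    (c : ℕ) (i : Fin 8) (hi : e i < 4) : w (c, i) = 0 := by
  classical
  have h1 := coeff_zero_of_dvd hdvd (c + 2) (e i) hi
  have h2 : Phi k e ((X 0 + X 7) * w.sum fun q t => t • fam k q) =
      w.sum fun q t => Polynomial.C (Polynomial.C t) *
        (Polynomial.C (Polynomial.C (sg k (e q.2)) * Polynomial.X ^ (e q.2)) *
          Polynomial.X ^ (q.1 + 2)) := by
    rw [map_mul, hθ, map_finsuppSum, Finsupp.mul_sum]
    refine Finsupp.sum_congr fun q _ => ?_
    rw [map_smul, fam, map_mul, map_pow, hθ, Phi_X, Algebra.smul_def]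
    have : (algebraMap k (Polynomial (Polynomial k))) (w q) = Polynomial.C (Polynomial.C (w q)) := rfl
    rw [this]
    ring
  rw [h2, Finsupp.sum, Polynomial.finsetSum_coeff, Polynomial.finsetSum_coeff] at h1
  rw [Finset.sum_eq_single (c, i)] at h1
  · rw [Polynomial.coeff_C_mul, Polynomial.coeff_C_mul, Polynomial.coeff_C_mul,
      Polynomial.coeff_X_pow, if_pos rfl, mul_one, Polynomial.coeff_C_mul,
      Polynomial.coeff_X_pow, if_pos rfl, mul_one, mul_eq_zero] at h1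
    exact h1.resolve_right (sg_ne_zero hi)
  · rintro ⟨c', i'⟩ _ hne
    rw [Polynomial.coeff_C_mul, Polynomial.coeff_C_mul, Polynomial.coeff_C_mul,
      Polynomial.coeff_X_pow]
    by_cases hc : c + 2 = c' + 2
    · have hi' : i ≠ i' := by
        rintro rfl
        apply hne
        rw [Prod.mk.injEq]
        exact ⟨by omega, rfl⟩
      rw [if_pos hc, mul_one, Polynomial.coeff_C_mul, Polynomial.coeff_X_pow,
        if_neg (fun h => hi' (he h)), mul_zero, mul_zero]
    · rw [if_neg hc, mul_zero, Polynomial.coeff_zero, mul_zero]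
  · intro h
    rw [Finsupp.notMem_support_iff.1 h, Polynomial.C_0, Polynomial.C_0, zero_mul,
      Polynomial.coeff_zero, Polynomial.coeff_zero]

lemma e1_spec : ∀ (i j : Fin 4) (a b : Fin 5), i < j → a < b →
    ∀ (p q r s : Fin 8), (p : ℕ) = i + a → (q : ℕ) = j + b → (r : ℕ) = i + b → (s : ℕ) = j + a →
    (p : ℕ) + q = r + s ∧
      ((p : ℕ) + q ≤ 3 → sg k p * sg k q + sg k r * sg k s = 0) := by
  intro i j a b hij hab p q r s hp hq hr hs
  rw [Fin.lt_def] at hij hab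
  refine ⟨by omega, fun h => ?_⟩
  have : ((p : ℕ) = 0 ∧ (q : ℕ) = 2 ∧ (r : ℕ) = 1 ∧ (s : ℕ) = 1) ∨
      ((p : ℕ) = 0 ∧ (q : ℕ) = 3 ∧ (r : ℕ) = 1 ∧ (s : ℕ) = 2) ∨
      ((p : ℕ) = 0 ∧ (q : ℕ) = 3 ∧ (r : ℕ) = 2 ∧ (s : ℕ) = 1) := by omega
  rcases this with ⟨h1, h2, h3, h4⟩ | ⟨h1, h2, h3, h4⟩ | ⟨h1, h2, h3, h4⟩ <;>
    rw [h1, h2, h3, h4] <;> simp [sg]

lemma e2_spec : ∀ (i j : Fin 4) (a b : Fin 5), i < j → a < b →
    ∀ (p q r s : Fin 8), (p : ℕ) = i + a → (q : ℕ) = j + b → (r : ℕ) = i + b → (s : ℕ) = j + a →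
    (7 - (p : ℕ)) + (7 - q) = (7 - r) + (7 - s) ∧
      ((7 - (p : ℕ)) + (7 - q) ≤ 3 →
        sg k (7 - p) * sg k (7 - q) + sg k (7 - r) * sg k (7 - s) = 0) := by
  intro i j a b hij hab p q r s hp hq hr hs
  rw [Fin.lt_def] at hij hab
  refine ⟨by omega, fun h => ?_⟩
  have : ((7 - (p : ℕ)) = 2 ∧ (7 - (q : ℕ)) = 0 ∧ (7 - (r : ℕ)) = 1 ∧ (7 - (s : ℕ)) = 1) ∨
      ((7 - (p : ℕ)) = 3 ∧ (7 - (q : ℕ)) = 0 ∧ (7 - (r : ℕ)) = 2 ∧ (7 - (s : ℕ)) = 1) ∨
      ((7 - (p : ℕ)) = 3 ∧ (7 - (q : ℕ)) = 0 ∧ (7 - (r : ℕ)) = 1 ∧ (7 - (s : ℕ)) = 2) := by omega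
  rcases this with ⟨h1, h2, h3, h4⟩ | ⟨h1, h2, h3, h4⟩ | ⟨h1, h2, h3, h4⟩ <;>
    rw [h1, h2, h3, h4] <;> simp [sg]

/-- `θ = y_0 + y_7` is a nonzerodivisor on the maximal ideal modulo `P_2`. -/
lemma theta_inj (h2 : (2 : k) ≠ 0) (p : MvPolynomial (Fin 8) k)
    (hp : p ∈ idealOfVars (Fin 8) k) (hθ : (X 0 + X 7) * p ∈ HI k) : p ∈ HI k := by
  obtain ⟨s, hs, ι, hι, rfl⟩ := Submodule.mem_sup.1 (vars_le_GG h2 p hp)
  have hι' : ι ∈ HI k := hι
  obtain ⟨w, rfl⟩ := Finsupp.mem_span_range_iff_exists_finsupp.1 hs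
  have h3 : (X 0 + X 7) * (w.sum fun q t => t • fam k q) ∈ HI k := by
    have := (HI k).sub_mem hθ ((HI k).mul_mem_left (X 0 + X 7) hι')
    convert this using 1
    ring
  have d1 := Phi_mem (k := k) (fun m => (m : ℕ)) e1_spec h3
  have d2 := Phi_mem (k := k) (fun m => 7 - (m : ℕ)) e2_spec h3
  have t1 : Phi k (fun m => (m : ℕ)) (X 0 + X 7) = Polynomial.X := by
    rw [map_add, Phi_X, Phi_X]; simp [sg]
  have t2 : Phi k (fun m => 7 - (m : ℕ)) (X 0 + X 7) = Polynomial.X := by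
    rw [map_add, Phi_X, Phi_X]; simp [sg]
  have hw : w = 0 := by
    ext ⟨c, i⟩
    by_cases hi : (i : ℕ) < 4
    · exact extract _ Fin.val_injective t1 w d1 c i hi
    · refine extract _ ?_ t2 w d2 c i ?_
      · intro a b hab
        apply Fin.ext
        simp only at hab
        omega
      · omega
  rw [hw, Finsupp.sum_zero_index, zero_add]
  exact hι

lemma HI_le : HI k ≤ idealOfVars (Fin 8) k ^ 2 := by
  unfold HI perm2
  rw [Ideal.span_le]
  rintro _ ⟨i, j, a, b, _, _, rfl⟩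
  rw [pow_two]
  exact Ideal.add_mem _
    (Ideal.mul_mem_mul (Ideal.subset_span ⟨_, rfl⟩) (Ideal.subset_span ⟨_, rfl⟩))
    (Ideal.mul_mem_mul (Ideal.subset_span ⟨_, rfl⟩) (Ideal.subset_span ⟨_, rfl⟩))

theorem isGolod_HI (h2 : (2 : k) ≠ 0) : IsGolod (HI k) := by
  classical
  unfold IsGolod
  set π := Ideal.Quotient.mk (HI k) with hπ
  set m := Ideal.span (Set.range (fun i : Fin 8 => π (X i))) with hm
  have hmap : m = (idealOfVars (Fin 8) k).map π := by
    rw [idealOfVars, Ideal.map_span, ← Set.range_comp]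
    rfl
  have hθ : ∑ i : Fin 8, (if i = 0 ∨ i = 7 then (1 : k) else 0) • π (X i) = π (X 0 + X 7) := by
    rw [Fin.sum_univ_eight]
    simp
  have hsm : ∀ (c : k) (f : MvPolynomial (Fin 8) k), c • π f = π (C c * f) := by
    intro c f
    rw [← smul_eq_C_mul]
    rfl
  refine hasTrivialMassey_minMult _ (fun i => if i = 0 ∨ i = 7 then (1 : k) else 0) ?_ ?_ ?_ ?_
  · intro i j
    obtain ⟨c, l, h⟩ := red h2 i j
    refine ⟨Pi.single l c, ?_⟩
    rw [hθ]
    have e : ∑ l', (Pi.single l c : Fin 8 → k) l' • π (X l') = π (C c * X l) := by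
      rw [Finset.sum_eq_single l]
      · rw [Pi.single_eq_same, hsm]
      · intro l' _ hl
        rw [Pi.single_eq_of_ne hl, zero_smul]
      · intro h; exact absurd (mem_univ l) h
    rw [e, ← map_mul, ← map_mul, hπ, Ideal.Quotient.eq]
    exact h
  · intro r hr h
    rw [hθ] at h
    rw [← hm, hmap] at hr
    obtain ⟨p, hp, rfl⟩ := (Ideal.mem_map_iff_of_surjective π Ideal.Quotient.mk_surjective).1 hr
    rw [← map_mul, hπ, Ideal.Quotient.eq_zero_iff_mem] at h
    rw [hπ, Ideal.Quotient.eq_zero_iff_mem]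
    exact theta_inj h2 p hp h
  · intro c hc
    rw [← hm, hmap, ← Ideal.map_pow] at hc
    obtain ⟨p, hp, e⟩ := (Ideal.mem_map_iff_of_surjective π Ideal.Quotient.mk_surjective).1 hc
    have e1 : ∑ i, c i • π (X i) = π (∑ i, C (c i) * X i) := by
      rw [map_sum]
      exact Finset.sum_congr rfl fun i _ => hsm _ _
    rw [e1, eq_comm, hπ, Ideal.Quotient.eq] at e
    have h3 : (∑ i, C (c i) * X i : MvPolynomial (Fin 8) k) ∈ idealOfVars (Fin 8) k ^ 2 := by
      have := Ideal.add_mem _ (HI_le e) hp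
      rwa [sub_add_cancel] at this
    rw [mem_pow_idealOfVars_iff'] at h3
    funext j
    have h4 := h3 (Finsupp.single j 1) (by simp)
    rw [coeff_sum, Finset.sum_eq_single j] at h4
    · rw [coeff_C_mul, coeff_X, if_pos rfl, mul_one] at h4
      exact h4
    · intro i _ hij
      rw [coeff_C_mul, coeff_X, if_neg, mul_zero]
      intro h
      exact hij (Finsupp.single_left_injective one_ne_zero h)
    · intro h; exact absurd (mem_univ j) h
  · intro r
    obtain ⟨p, rfl⟩ := Ideal.Quotient.mk_surjective r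
    refine ⟨coeff 0 p, ?_⟩
    have e : (Ideal.Quotient.mk (HI k)) p -
        algebraMap k (MvPolynomial (Fin 8) k ⧸ HI k) (coeff 0 p) = π (p - C (coeff 0 p)) := by
      rw [map_sub]; rfl
    rw [e, ← hm, hmap]
    apply Ideal.mem_map_of_mem
    have h := mem_pow_idealOfVars_iff' (σ := Fin 8) (R := k) 1 (p - C (coeff 0 p))
    rw [pow_one] at h
    rw [h]
    intro x hx
    have : x = 0 := by
      rw [Nat.lt_one_iff, Finsupp.degree_eq_zero_iff] at hx
      exact hx
    rw [this, coeff_sub, coeff_C, if_pos rfl, sub_self]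

end Pool.Agent.R674.Golod
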