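import Pool.Agent.R674.Golod.Defs

namespace Pool.Agent.R674.Golod

open Finset

universe u

variable {n : ℕ}

/-! ### Signs -/

lemma sgn_insert {i j : Fin n} {N : Finset (Fin n)} (hj : j ∉ N) :
    sgn i (insert j N) = (if j < i then -1 else 1) * sgn i N := by
  unfold sgn
  rw [Finset.filter_insert]
  split_ifs with h
  · rw [Finset.card_insert_of_notMem (by simp [hj]), pow_succ]; ring
  · simp

lemma sgn_mul_self (i : Fin n) (N : Finset (Fin n)) : sgn i N * sgn i N = 1 := by
  unfold sgn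
  rw [← pow_add, ← two_mul, pow_mul]; simp

lemma sgn_erase_self (i : Fin n) (N : Finset (Fin n)) : sgn i (N.erase i) = sgn i N := by
  unfold sgn
  congr 2
  ext j
  simp only [mem_filter, mem_erase]
  constructor
  · rintro ⟨⟨_, h⟩, h'⟩; exact ⟨h, h'⟩
  · rintro ⟨h, h'⟩; exact ⟨⟨ne_of_lt h', h⟩, h'⟩

lemma sgn_swap {i j : Fin n} {N : Finset (Fin n)} (hij : i ≠ j) (hi : i ∉ N) (hj : j ∉ N) :
    sgn i N * sgn j (insert i N) = -(sgn j N * sgn i (insert j N)) := by
  rw [sgn_insert hi, sgn_insert hj]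
  rcases lt_or_gt_of_ne hij with h | h
  · rw [if_pos h, if_neg (not_lt.2 h.le)]; ring
  · rw [if_neg (not_lt.2 h.le), if_pos h]; ring

/-- `(-1)^{#{a ∈ A : i < a}}` -/
def sgn' (i : Fin n) (A : Finset (Fin n)) : ℤ := (-1) ^ (A.filter (fun j => i < j)).card

lemma sgn_mul_sgn' {i : Fin n} {A : Finset (Fin n)} (hi : i ∉ A) :
    sgn i A * sgn' i A = (-1) ^ A.card := by
  unfold sgn sgn'
  rw [← pow_add, ← Finset.card_union_of_disjoint]
  · congr 2
    ext j
    simp only [mem_union, mem_filter]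
    constructor
    · rintro (⟨h, _⟩ | ⟨h, _⟩) <;> exact h
    · intro h
      have : j ≠ i := fun e => hi (e ▸ h)
      rcases lt_or_gt_of_ne this with h' | h'
      · exact Or.inl ⟨h, h'⟩
      · exact Or.inr ⟨h, h'⟩
  · rw [Finset.disjoint_left]
    intro j h1 h2
    simp only [mem_filter] at h1 h2
    exact absurd h1.2 (not_lt.2 h2.2.le)

lemma shuf_insert_left {i : Fin n} {A B : Finset (Fin n)} (hi : i ∉ A) :
    shuf (insert i A) B = shuf A B * sgn i B := by
  unfold shuf sgn
  rw [← pow_add]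
  congr 1
  have h : ((insert i A) ×ˢ B).filter (fun p => p.2 < p.1) =
      ((A ×ˢ B).filter (fun p => p.2 < p.1)) ∪ ((B.filter (fun j => j < i)).image (fun j => (i, j))) := by
    ext ⟨a, b⟩
    simp only [mem_filter, mem_product, mem_insert, mem_union, mem_image, Prod.mk.injEq]
    constructor
    · rintro ⟨⟨rfl | ha, hb⟩, h⟩
      · exact Or.inr ⟨b, ⟨hb, h⟩, rfl, rfl⟩
      · exact Or.inl ⟨⟨ha, hb⟩, h⟩
    · rintro (⟨⟨ha, hb⟩, h⟩ | ⟨j, ⟨hj, hji⟩, rfl, rfl⟩)
      · exact ⟨⟨Or.inr ha, hb⟩, h⟩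
      · exact ⟨⟨Or.inl rfl, hj⟩, hji⟩
  rw [h, Finset.card_union_of_disjoint, Finset.card_image_of_injective]
  · intro a b hab; simpa using hab
  · rw [Finset.disjoint_left]
    rintro ⟨a, b⟩ h1 h2
    simp only [mem_filter, mem_product, mem_image, Prod.mk.injEq] at h1 h2
    obtain ⟨j, _, rfl, _⟩ := h2
    exact hi h1.1.1

lemma shuf_insert_right {i : Fin n} {A B : Finset (Fin n)} (hi : i ∉ B) :
    shuf A (insert i B) = shuf A B * sgn' i A := by
  unfold shuf sgn'
  rw [← pow_add]
  congr 1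
  have h : (A ×ˢ (insert i B)).filter (fun p => p.2 < p.1) =
      ((A ×ˢ B).filter (fun p => p.2 < p.1)) ∪ ((A.filter (fun j => i < j)).image (fun j => (j, i))) := by
    ext ⟨a, b⟩
    simp only [mem_filter, mem_product, mem_insert, mem_union, mem_image, Prod.mk.injEq]
    constructor
    · rintro ⟨⟨ha, rfl | hb⟩, h⟩
      · exact Or.inr ⟨a, ⟨ha, h⟩, rfl, rfl⟩
      · exact Or.inl ⟨⟨ha, hb⟩, h⟩
    · rintro (⟨⟨ha, hb⟩, h⟩ | ⟨j, ⟨hj, hji⟩, rfl, rfl⟩)
      · exact ⟨⟨ha, Or.inr hb⟩, h⟩
      · exact ⟨⟨hj, Or.inl rfl⟩, hji⟩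
  rw [h, Finset.card_union_of_disjoint, Finset.card_image_of_injective]
  · intro a b hab; simpa using hab
  · rw [Finset.disjoint_left]
    rintro ⟨a, b⟩ h1 h2
    simp only [mem_filter, mem_product, mem_image, Prod.mk.injEq] at h1 h2
    obtain ⟨j, _, _, rfl⟩ := h2
    exact hi h1.1.2

/-! ### Linearity -/

section lin

variable {R : Type*} [CommRing R] (x : Fin n → R)

lemma d_add (a b : Kos n R) : d x (a + b) = d x a + d x b := by
  funext N
  simp only [d, Pi.add_apply, ← Finset.sum_add_distrib]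
  refine Finset.sum_congr rfl fun i _ => ?_
  rw [mul_add, smul_add]

lemma d_smul {k : Type*} [CommSemiring k] [Algebra k R] (t : k) (a : Kos n R) :
    d x (t • a) = t • d x a := by
  funext N
  simp only [d, Pi.smul_apply, Finset.smul_sum]
  refine Finset.sum_congr rfl fun i _ => ?_
  rw [mul_smul_comm, smul_comm]

lemma d_zero : d x (0 : Kos n R) = 0 := by
  funext N
  simp [d]

lemma d_neg (a : Kos n R) : d x (-a) = - d x a := by
  funext N
  simp [d]

lemma d_sub (a b : Kos n R) : d x (a - b) = d x a - d x b := by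
  rw [sub_eq_add_neg, d_add, d_neg, sub_eq_add_neg]

/-- `d` as a `k`-linear map. -/
def dL (k : Type*) [CommSemiring k] [Algebra k R] : Kos n R →ₗ[k] Kos n R where
  toFun := d x
  map_add' := d_add x
  map_smul' := d_smul x

lemma d_d (a : Kos n R) : d x (d x a) = 0 := by
  funext N
  have e : d x (d x a) N = ∑ p ∈ (univ : Finset (Fin n)) ×ˢ (univ : Finset (Fin n)),
      if p.1 ∉ N ∧ p.2 ∉ N ∧ p.1 ≠ p.2 then
        (sgn p.1 N * sgn p.2 (insert p.1 N)) • (x p.1 * (x p.2 * a (insert p.2 (insert p.1 N))))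
      else 0 := by
    rw [Finset.sum_product]
    simp only [d]
    rw [← Finset.sum_subset (Finset.subset_univ Nᶜ)]
    · refine Finset.sum_congr rfl fun i hi => ?_
      have hi' : i ∉ N := by simpa using hi
      rw [← Finset.sum_subset (Finset.subset_univ (insert i N)ᶜ)]
      · rw [Finset.mul_sum, Finset.smul_sum]
        refine Finset.sum_congr rfl fun j hj => ?_
        have hj' : j ≠ i ∧ j ∉ N := by simpa using hj
        rw [if_pos ⟨hi', hj'.2, hj'.1.symm⟩, mul_smul_comm, smul_smul]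
      · intro j _ hj
        rw [if_neg]
        rintro ⟨_, h2, h3⟩
        apply hj
        simp only [mem_compl, mem_insert, not_or]
        exact ⟨fun e => h3 e.symm, h2⟩
    · intro i _ hi
      apply Finset.sum_eq_zero
      intro j _
      rw [if_neg]
      rintro ⟨h1, _⟩
      exact hi (by simpa using h1)
  rw [e]
  refine Finset.sum_involution (fun p _ => (p.2, p.1)) ?_ ?_ ?_ ?_
  · rintro ⟨i, j⟩ _
    dsimp only
    by_cases h : i ∉ N ∧ j ∉ N ∧ i ≠ j
    · rw [if_pos h, if_pos ⟨h.2.1, h.1, h.2.2.symm⟩, sgn_swap h.2.2 h.1 h.2.1,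
        Finset.insert_comm j i N, neg_smul]
      rw [neg_add_eq_zero]
      congr 1
      ring
    · rw [if_neg h, if_neg (fun h' => h ⟨h'.2.1, h'.1, h'.2.2.symm⟩), add_zero]
  · rintro ⟨i, j⟩ _ hne heq
    simp only [Prod.mk.injEq] at heq
    apply hne
    rw [if_neg]
    rintro ⟨_, _, h⟩
    exact h heq.2
  · intro p _; simp
  · intro p _; rfl

/-- the component of degree `p` -/
def proj (p : ℕ) (a : Kos n R) : Kos n R := fun N => if N.card = p then a N else 0

lemma inDeg_proj (p : ℕ) (a : Kos n R) : InDeg p (proj p a) := by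
  intro N hN
  simp [proj, hN]

lemma proj_of_inDeg {p : ℕ} {a : Kos n R} (h : InDeg p a) : proj p a = a := by
  funext N
  unfold proj
  split_ifs with h'
  · rfl
  · exact (h N h').symm

lemma d_proj (p : ℕ) (a : Kos n R) : d x (proj (p + 1) a) = proj p (d x a) := by
  funext N
  simp only [d, proj]
  split_ifs with h
  · refine Finset.sum_congr rfl fun i hi => ?_
    rw [if_pos]
    rw [Finset.card_insert_of_notMem (by simpa using hi), h]
  · apply Finset.sum_eq_zero
    intro i hi
    rw [if_neg, mul_zero, smul_zero]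
    rw [Finset.card_insert_of_notMem (by simpa using hi)]
    omega

lemma InDeg.d {p : ℕ} {a : Kos n R} (h : InDeg (p + 1) a) : InDeg p (d x a) := by
  have := d_proj x p a
  rw [proj_of_inDeg h] at this
  rw [this]
  exact inDeg_proj _ _

lemma InDeg.add {p : ℕ} {a b : Kos n R} (ha : InDeg p a) (hb : InDeg p b) : InDeg p (a + b) := by
  intro N hN
  rw [Pi.add_apply, ha N hN, hb N hN, add_zero]

lemma InDeg.sub {p : ℕ} {a b : Kos n R} (ha : InDeg p a) (hb : InDeg p b) : InDeg p (a - b) := by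
  intro N hN
  rw [Pi.sub_apply, ha N hN, hb N hN, sub_zero]

lemma InDeg.smul {k : Type*} [CommSemiring k] [Algebra k R] {p : ℕ} {a : Kos n R} (t : k)
    (ha : InDeg p a) : InDeg p (t • a) := by
  intro N hN
  rw [Pi.smul_apply, ha N hN, smul_zero]

lemma InDeg.zero {p : ℕ} : InDeg p (0 : Kos n R) := fun _ _ => rfl

/-! ### The product in top degree -/

lemma mul_univ (a b : Kos n R) : mul a b univ = ∑ A, shuf A Aᶜ • (a A * b Aᶜ) := by
  simp only [mul, Finset.powerset_univ]
  rfl

lemma key_sign {i : Fin n} {A : Finset (Fin n)} (hi : i ∉ A) :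
    shuf A Aᶜ * sgn i A =
      -((-1) ^ (insert i A).card * shuf (insert i A) (insert i A)ᶜ * sgn i (insert i A)ᶜ) := by
  have h1 : Aᶜ = insert i (insert i A)ᶜ := by
    ext j
    simp only [mem_compl, mem_insert, not_or]
    constructor
    · intro h
      by_cases hj : j = i
      · exact Or.inl hj
      · exact Or.inr ⟨hj, h⟩
    · rintro (rfl | ⟨_, h⟩)
      · exact hi
      · exact h
  have h2 : i ∉ (insert i A)ᶜ := by simp
  rw [show shuf A Aᶜ = shuf A (insert i A)ᶜ * sgn' i A by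
    conv_lhs => rw [h1]
    exact shuf_insert_right h2]
  rw [shuf_insert_left hi, Finset.card_insert_of_notMem hi, pow_succ]
  have e1 := sgn_mul_sgn' hi
  have e2 := sgn_mul_self i (insert i A)ᶜ
  calc shuf A (insert i A)ᶜ * sgn' i A * sgn i A
      = shuf A (insert i A)ᶜ * (sgn i A * sgn' i A) := by ring
    _ = shuf A (insert i A)ᶜ * (-1) ^ A.card := by rw [e1]
    _ = (-1) ^ A.card * shuf A (insert i A)ᶜ * (sgn i (insert i A)ᶜ * sgn i (insert i A)ᶜ) := by
        rw [e2]; ring
    _ = _ := by ring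

lemma top_leibniz (w v : Kos n R) :
    ∑ A, shuf A Aᶜ • (d x w A * v Aᶜ) =
      -∑ P : Finset (Fin n), ((-1) ^ P.card * shuf P Pᶜ) • (w P * d x v Pᶜ) := by
  have e1 : ∑ A, shuf A Aᶜ • (d x w A * v Aᶜ) =
      ∑ q ∈ (univ : Finset (Finset (Fin n))).sigma (fun A => Aᶜ),
        (shuf q.1 q.1ᶜ * sgn q.2 q.1) • (x q.2 * w (insert q.2 q.1) * v q.1ᶜ) := by
    rw [Finset.sum_sigma]
    refine Finset.sum_congr rfl fun A _ => ?_
    simp only [d, Finset.sum_mul, Finset.smul_sum]
    refine Finset.sum_congr rfl fun i _ => ?_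
    rw [smul_mul_assoc, smul_smul]
  have e2 : -∑ P : Finset (Fin n), ((-1) ^ P.card * shuf P Pᶜ) • (w P * d x v Pᶜ) =
      ∑ q ∈ (univ : Finset (Finset (Fin n))).sigma (fun P => P),
        (-((-1) ^ q.1.card * shuf q.1 q.1ᶜ * sgn q.2 q.1ᶜ)) •
          (x q.2 * w q.1 * v (insert q.2 q.1ᶜ)) := by
    rw [Finset.sum_sigma, ← Finset.sum_neg_distrib]
    refine Finset.sum_congr rfl fun P _ => ?_
    simp only [d, compl_compl, Finset.mul_sum, Finset.smul_sum]
    rw [← Finset.sum_neg_distrib]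
    refine Finset.sum_congr rfl fun i _ => ?_
    rw [mul_smul_comm, smul_smul, neg_smul]
    congr 2
    ring
  rw [e1, e2]
  refine Finset.sum_bij' (fun q _ => ⟨insert q.2 q.1, q.2⟩) (fun q _ => ⟨q.1.erase q.2, q.2⟩)
    ?_ ?_ ?_ ?_ ?_
  · rintro ⟨A, i⟩ h
    simp
  · rintro ⟨A, i⟩ h
    simp
  · rintro ⟨A, i⟩ h
    simp only [mem_sigma, mem_univ, true_and, mem_compl] at h
    simp [Finset.erase_insert h]
  · rintro ⟨A, i⟩ h
    simp only [mem_sigma, mem_univ, true_and] at h
    simp [Finset.insert_erase h]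
  · rintro ⟨A, i⟩ h
    simp only [mem_sigma, mem_univ, true_and, mem_compl] at h
    dsimp only
    rw [key_sign h]
    congr 2
    · congr 1
      ext j
      simp only [mem_compl, mem_insert, not_or]
      constructor
      · intro hj
        by_cases hji : j = i
        · exact Or.inl hji
        · exact Or.inr ⟨hji, hj⟩
      · rintro (rfl | ⟨_, hj⟩)
        · exact h
        · exact hj

lemma mul_d_left_univ {w v : Kos n R} (hv : d x v = 0) : mul (d x w) v univ = 0 := by
  rw [mul_univ, top_leibniz]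
  simp [hv]

lemma mul_d_right_univ {p : ℕ} {w v : Kos n R} (hp : InDeg p v) (hv : d x v = 0) :
    mul v (d x w) univ = 0 := by
  rw [mul_univ]
  have h := top_leibniz x v w
  simp only [hv, Pi.zero_apply, zero_mul, smul_zero, Finset.sum_const_zero] at h
  have h' : ∑ P : Finset (Fin n), ((-1) ^ P.card * shuf P Pᶜ) • (v P * d x w Pᶜ) = 0 := by
    rw [← neg_eq_zero]; exact h.symm
  have h'' : ∑ P : Finset (Fin n), ((-1) ^ P.card * shuf P Pᶜ) • (v P * d x w Pᶜ) =
      ((-1 : ℤ) ^ p) • ∑ P : Finset (Fin n), (shuf P Pᶜ) • (v P * d x w Pᶜ) := by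
    rw [Finset.smul_sum]
    refine Finset.sum_congr rfl fun P _ => ?_
    by_cases hP : P.card = p
    · rw [hP, mul_smul]
    · rw [hp P hP]; simp
  rw [h''] at h'
  have h3 := congrArg (fun t => ((-1 : ℤ) ^ p) • t) h'
  simp only [smul_smul, smul_zero, ← mul_pow] at h3
  simpa using h3

/-! ### A criterion -/

lemma mul_eq_zero_of (Q : Finset (Fin n) → Ideal R)
    (hQ : ∀ A B, Disjoint A B → A.Nonempty → B.Nonempty → Q A * Q B = ⊥)
    {p q : ℕ} {a b : Kos n R} (ha : InDeg (p + 1) a) (hb : InDeg (q + 1) b)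
    (haQ : ∀ N, N.card = p + 1 → a N ∈ Q N) (hbQ : ∀ N, N.card = q + 1 → b N ∈ Q N) :
    mul a b = 0 := by
  funext N
  simp only [mul, Pi.zero_apply]
  apply Finset.sum_eq_zero
  intro A hA
  by_cases h1 : A.card = p + 1
  · by_cases h2 : (N \ A).card = q + 1
    · have h3 : a A * b (N \ A) ∈ Q A * Q (N \ A) := Ideal.mul_mem_mul (haQ A h1) (hbQ _ h2)
      rw [hQ A (N \ A) Finset.disjoint_sdiff (Finset.card_pos.1 (by omega))
        (Finset.card_pos.1 (by omega))] at h3
      rw [(Submodule.mem_bot R).1 h3, smul_zero]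
    · rw [hb _ h2, mul_zero, smul_zero]
  · rw [ha _ h1, zero_mul, smul_zero]

end lin

/-- Cycles of positive degree can be represented by cycles whose pairwise products vanish:
then there is a trivial Massey operation. -/
theorem hasTrivialMassey_of {k : Type u} [Field k] {R : Type u} [CommRing R] [Algebra k R]
    (x : Fin n → R) (Q : Finset (Fin n) → Ideal R)
    (hQ : ∀ A B, Disjoint A B → A.Nonempty → B.Nonempty → Q A * Q B = ⊥)
    (hcyc : ∀ (p : ℕ) (a : Kos n R), InDeg (p + 1) a → d x a = 0 →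
      ∃ w : Kos n R, InDeg (p + 2) w ∧ ∀ N, N.card = p + 1 → a N - d x w N ∈ Q N) :
    HasTrivialMassey k x := by
  classical
  let W : ℕ → Submodule k (Kos n R) := fun p =>
    { carrier := {a | InDeg (p + 1) a ∧ d x a = 0 ∧ ∀ N, N.card = p + 1 → a N ∈ Q N}
      add_mem' := by
        rintro a b ⟨h1, h2, h3⟩ ⟨h4, h5, h6⟩
        refine ⟨h1.add h4, by rw [d_add, h2, h5, add_zero], fun N hN => ?_⟩
        exact (Q N).add_mem (h3 N hN) (h6 N hN)
      zero_mem' := ⟨InDeg.zero, d_zero x, fun N _ => (Q N).zero_mem⟩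
      smul_mem' := by
        rintro t a ⟨h1, h2, h3⟩
        refine ⟨h1.smul t, by rw [d_smul, h2, smul_zero], fun N hN => ?_⟩
        rw [Pi.smul_apply, Algebra.smul_def]
        exact (Q N).mul_mem_left _ (h3 N hN) }
  let B : Submodule k (Kos n R) := LinearMap.range (dL x k)
  let f : (p : ℕ) → (W p →ₗ[k] (Kos n R ⧸ B)) := fun p => B.mkQ.comp (W p).subtype
  let b := fun p => Module.Basis.ofVectorSpace k (LinearMap.range (f p))
  have hb : ∀ p (l : Module.Basis.ofVectorSpaceIndex k (LinearMap.range (f p))),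
      ∃ w : W p, f p w = (b p l : (Kos n R ⧸ B)) := fun p l => (b p l).2
  choose z hz using hb
  refine ⟨fun p => Module.Basis.ofVectorSpaceIndex k (LinearMap.range (f p)),
    fun L => match L with
      | [l] => (z l.1 l.2 : Kos n R)
      | _ => 0, ?_, ?_, ?_, ?_, ?_⟩
  · intro L hL
    match L, hL with
    | [l], _ =>
      have := (z l.1 l.2).2.1
      simpa using this
    | (l :: l' :: L'), _ => exact InDeg.zero
  · intro l
    exact (z l.1 l.2).2.2.1
  · intro p c hc
    have h1 : B.mkQ (c.sum fun l t => t • (z p l : Kos n R)) = 0 := by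
      rw [Submodule.mkQ_apply, Submodule.Quotient.mk_eq_zero]
      obtain ⟨w, hw⟩ := hc
      exact ⟨w, hw⟩
    have h2 : c.sum (fun l t => t • (b p l)) = 0 := by
      apply Subtype.ext
      rw [Finsupp.sum, Submodule.coe_zero, ← h1, Finsupp.sum, map_sum, Submodule.coe_sum]
      refine Finset.sum_congr rfl fun l _ => ?_
      rw [map_smul, Submodule.coe_smul, ← hz p l]
      rfl
    have h3 := (b p).linearIndependent
    rw [linearIndependent_iff] at h3
    exact h3 c h2
  · intro p a ha hda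
    obtain ⟨w, hw, hwQ⟩ := hcyc p a ha hda
    have hmem : a - d x w ∈ W p := by
      refine ⟨ha.sub (hw.d x), ?_, hwQ⟩
      rw [d_sub, hda, d_d, sub_zero]
    let y : LinearMap.range (f p) := ⟨f p ⟨_, hmem⟩, ⟨_, rfl⟩⟩
    refine ⟨(b p).repr y, ?_⟩
    have h1 := (b p).linearCombination_repr y
    have h2 : B.mkQ (((b p).repr y).sum fun l t => t • (z p l : Kos n R)) = f p ⟨_, hmem⟩ := by
      rw [Finsupp.sum, map_sum]
      have h3 := congrArg (Subtype.val) h1
      rw [Finsupp.linearCombination_apply, Finsupp.sum, Submodule.coe_sum] at h3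
      rw [show (f p ⟨_, hmem⟩) = (y : Kos n R ⧸ B) from rfl, ← h3]
      refine Finset.sum_congr rfl fun l _ => ?_
      rw [map_smul, Submodule.coe_smul, ← hz p l]
      rfl
    have h4 : B.mkQ (a - ((b p).repr y).sum fun l t => t • (z p l : Kos n R)) = 0 := by
      rw [map_sub, h2]
      show B.mkQ a - B.mkQ (a - d x w) = 0
      rw [map_sub]
      have : B.mkQ (d x w) = 0 := by
        rw [Submodule.mkQ_apply, Submodule.Quotient.mk_eq_zero]
        exact ⟨w, rfl⟩
      rw [this]; simp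
    rw [Submodule.mkQ_apply, Submodule.Quotient.mk_eq_zero] at h4
    obtain ⟨w', hw'⟩ := h4
    exact ⟨w', hw'⟩
  · intro L hL
    match L, hL with
    | [l, l'], _ =>
      have hm := mul_eq_zero_of Q hQ (z l.1 l.2).2.1 (z l'.1 l'.2).2.1 (z l.1 l.2).2.2.2
        (z l'.1 l'.2).2.2.2
      simp [d_zero, hm]
    | (l :: l' :: l'' :: L'), _ =>
      rw [Finset.sum_eq_zero]
      · exact d_zero x
      · intro j hj
        rw [Finset.mem_Ico] at hj
        obtain ⟨j, rfl⟩ : ∃ i, j = i + 1 := ⟨j - 1, by omega⟩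
        rcases j with _ | j
        · simp only [List.take_succ_cons, List.take_zero, List.drop_succ_cons, List.drop_zero]
          have : mul (z l.1 l.2 : Kos n R) 0 = 0 := by
            funext N; simp [mul]
          rw [this, smul_zero]
        · simp only [List.take_succ_cons]
          have : ∀ y : Kos n R, mul (0 : Kos n R) y = 0 := by
            intro y; funext N; simp [mul]
          rw [this, smul_zero]


end Pool.Agent.R674.Golod
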