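import Pool.Agent.R674.Golod.Mon

namespace Pool.Agent.R674.Golod

open Finset MvPolynomial

universe u

variable {n : ℕ} {k : Type u} [Field k]

lemma d_map {A B : Type*} [CommRing A] [CommRing B] (φ : A →+* B) (x : Fin n → A) (z : Kos n A)
    (N : Finset (Fin n)) :
    d (fun i => φ (x i)) (fun N => φ (z N)) N = φ (d x z N) := by
  simp only [d, map_sum, map_zsmul, map_mul]

theorem isGolod_of (I : Ideal (MvPolynomial (Fin n) k))
    (Q : Finset (Fin n) → Ideal (MvPolynomial (Fin n) k))
    (hQ : ∀ A B, Disjoint A B → A.Nonempty → B.Nonempty → Q A * Q B ≤ I)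
    (hcyc : ∀ (p : ℕ) (z : Kos n (MvPolynomial (Fin n) k)), InDeg (p + 1) z →
      (∀ N, d X z N ∈ I) → ∃ w : Kos n (MvPolynomial (Fin n) k), InDeg (p + 2) w ∧
        ∀ N, N.card = p + 1 → z N - d X w N ∈ Q N) : IsGolod I := by
  classical
  unfold IsGolod
  refine hasTrivialMassey_of _ (fun N => (Q N).map (Ideal.Quotient.mk I)) ?_ ?_
  · intro A B h1 h2 h3
    rw [← Ideal.map_mul, eq_bot_iff]
    refine (Ideal.map_mono (hQ A B h1 h2 h3)).trans ?_
    rw [Ideal.map_quotient_self]
  · intro p a ha hda
    have hs : Function.Surjective (Ideal.Quotient.mk I) := Ideal.Quotient.mk_surjective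
    choose g hg using hs
    let z : Kos n (MvPolynomial (Fin n) k) := fun N => if N.card = p + 1 then g (a N) else 0
    have hz : (fun N => Ideal.Quotient.mk I (z N)) = a := by
      funext N
      by_cases h : N.card = p + 1
      · simp only [z, if_pos h, hg]
      · simp only [z, if_neg h, map_zero, ha N h]
    obtain ⟨w, hw, hwQ⟩ := hcyc p z (fun N hN => if_neg hN) (fun N => by
      rw [← Ideal.Quotient.eq_zero_iff_mem, ← d_map, hz, hda]; rfl)
    refine ⟨fun N => Ideal.Quotient.mk I (w N), fun N hN => ?_, fun N hN => ?_⟩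
    · show Ideal.Quotient.mk I (w N) = 0
      rw [hw N hN, map_zero]
    · rw [d_map, ← hz]
      show Ideal.Quotient.mk I (z N) - _ ∈ _
      rw [← map_sub]
      exact Ideal.mem_map_of_mem _ (hwQ N hN)

/-! ### The square of the maximal ideal -/

lemma mem_vars_iff (p : MvPolynomial (Fin n) k) : p ∈ idealOfVars (Fin n) k ↔ coeff 0 p = 0 := by
  have h := mem_pow_idealOfVars_iff' (σ := Fin n) (R := k) 1 p
  rw [pow_one] at h
  rw [h]
  constructor
  · intro h'; exact h' 0 (by simp)
  · intro h' x hx
    have : x = 0 := by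
      rw [Nat.lt_one_iff, Finsupp.degree_eq_zero_iff] at hx
      exact hx
    rw [this, h']

theorem isGolod_sq : IsGolod (idealOfVars (Fin n) k ^ 2) := by
  classical
  refine isGolod_of _ (fun _ => idealOfVars (Fin n) k) ?_ ?_
  · intro A B _ _ _
    rw [pow_two]
  · intro p z hz hdz
    refine ⟨0, InDeg.zero, fun N hN => ?_⟩
    rw [d_zero, Pi.zero_apply, sub_zero, mem_vars_iff]
    obtain ⟨i, hi⟩ : N.Nonempty := Finset.card_pos.1 (by omega)
    have h1 := (mem_pow_idealOfVars_iff' 2 _).1 (hdz (N.erase i)) (Finsupp.single i 1) (by simp)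
    simp only [d, coeff_sum] at h1
    rw [Finset.sum_eq_single i] at h1
    · rw [Finset.insert_erase hi] at h1
      have e1 : coeff (Finsupp.single i 1) (sgn i (N.erase i) • (X i * z N)) =
          sgn i (N.erase i) • coeff 0 (z N) := by
        rw [coeff_smul, coeff_X_mul']
        simp
      rw [e1] at h1
      have h2 := congrArg (fun t => sgn i (N.erase i) • t) h1
      simp only [smul_smul, sgn_mul_self, one_smul, smul_zero] at h2
      exact h2
    · intro j hj hji
      rw [coeff_smul, coeff_X_mul', if_neg, smul_zero]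
      rw [Finsupp.mem_support_iff, Finsupp.single_apply, if_neg hji.symm]
      simp
    · intro h
      simp at h

/-! ### The ideal `J` -/

/-- exponents of the monomials of `J` -/
def PJ (s : Fin 4 →₀ ℕ) : Prop := (∃ i, 4 ≤ s i ∧ 5 ≤ s.degree) ∨ (∀ i, 3 ≤ s i)

/-- exponents for the coefficients of the chosen cycles -/
def PQ (N : Finset (Fin 4)) (s : Fin 4 →₀ ℕ) : Prop :=
  (∃ i, 4 ≤ s i) ∨ (2 ≤ N.card ∧ ∀ i ∈ N, 3 ≤ s i) ∨ (∃ j ∈ N, 2 ≤ s j ∧ ∀ i, i ≠ j → 3 ≤ s i)

lemma degree_mono' {s t : Fin n →₀ ℕ} (h : s ≤ t) : s.degree ≤ t.degree := Finsupp.degree_mono h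

lemma PJ_mono (s t : Fin 4 →₀ ℕ) (h : s ≤ t) (hs : PJ s) : PJ t := by
  rcases hs with ⟨i, h1, h2⟩ | h1
  · exact Or.inl ⟨i, h1.trans (h i), h2.trans (degree_mono' h)⟩
  · exact Or.inr fun i => (h1 i).trans (h i)

lemma PQ_mono (N : Finset (Fin 4)) (s t : Fin 4 →₀ ℕ) (h : s ≤ t) (hs : PQ N s) : PQ N t := by
  rcases hs with ⟨i, h1⟩ | ⟨h1, h2⟩ | ⟨j, hj, h1, h2⟩
  · exact Or.inl ⟨i, h1.trans (h i)⟩
  · exact Or.inr (Or.inl ⟨h1, fun i hi => (h2 i hi).trans (h i)⟩)
  · exact Or.inr (Or.inr ⟨j, hj, h1.trans (h j), fun i hi => (h2 i hi).trans (h i)⟩)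

lemma le_degree' (s : Fin n →₀ ℕ) (i : Fin n) : s i ≤ s.degree := Finsupp.le_degree i s

lemma PQ_pos {N : Finset (Fin 4)} {s : Fin 4 →₀ ℕ} (hs : PQ N s) (hN : N.Nonempty) :
    1 ≤ s.degree := by
  rcases hs with ⟨i, h1⟩ | ⟨h1, h2⟩ | ⟨j, hj, h1, h2⟩
  · exact le_trans (by omega) (le_degree' s i)
  · obtain ⟨i, hi⟩ := hN
    exact le_trans (by have := h2 i hi; omega) (le_degree' s i)
  · exact le_trans (by omega) (le_degree' s j)

lemma PQ_mul {A B : Finset (Fin 4)} (hAB : Disjoint A B) (hA : A.Nonempty) (hB : B.Nonempty)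
    (s t : Fin 4 →₀ ℕ) (hs : PQ A s) (ht : PQ B t) : PJ (s + t) := by
  have key : ∀ i, 3 ≤ s i → 3 ≤ t i → PJ (s + t) := by
    intro i h1 h2
    refine Or.inl ⟨i, ?_, ?_⟩
    · rw [Finsupp.add_apply]; omega
    · refine le_trans ?_ (le_degree' (s + t) i)
      rw [Finsupp.add_apply]; omega
  have hs1 := PQ_pos hs hA
  have ht1 := PQ_pos ht hB
  have hdeg : (s + t).degree = s.degree + t.degree := map_add _ _ _
  rcases hs with ⟨i, h1⟩ | ⟨h1, h2⟩ | ⟨j, hj, h1, h2⟩
  · refine Or.inl ⟨i, ?_, ?_⟩
    · rw [Finsupp.add_apply]; omega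
    · rw [hdeg]; have := le_degree' s i; omega
  · rcases ht with ⟨i, h3⟩ | ⟨h3, h4⟩ | ⟨l, hl, h3, h4⟩
    · refine Or.inl ⟨i, ?_, ?_⟩
      · rw [Finsupp.add_apply]; omega
      · rw [hdeg]; have := le_degree' t i; omega
    · refine Or.inr fun i => ?_
      have hu : A ∪ B = univ := by
        rw [← Finset.card_eq_iff_eq_univ]
        have := Finset.card_le_univ (A ∪ B)
        rw [Finset.card_union_of_disjoint hAB] at this ⊢
        simp only [Fintype.card_fin] at this ⊢
        omega
      have hi : i ∈ A ∪ B := hu ▸ mem_univ i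
      rw [Finsupp.add_apply]
      rcases Finset.mem_union.1 hi with h | h
      · have := h2 i h; omega
      · have := h4 i h; omega
    · obtain ⟨i, hi⟩ := hA
      have hil : i ≠ l := fun e => Finset.disjoint_left.1 hAB hi (e ▸ hl)
      exact key i (h2 i hi) (h4 i hil)
  · rcases ht with ⟨i, h3⟩ | ⟨h3, h4⟩ | ⟨l, hl, h3, h4⟩
    · refine Or.inl ⟨i, ?_, ?_⟩
      · rw [Finsupp.add_apply]; omega
      · rw [hdeg]; have := le_degree' t i; omega
    · obtain ⟨i, hi⟩ := hB
      have hij : i ≠ j := fun e => Finset.disjoint_left.1 hAB hj (e ▸ hi)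
      exact key i (h2 i hij) (h4 i hi)
    · have h5 : ∀ j l : Fin 4, ∃ i : Fin 4, i ≠ j ∧ i ≠ l := by decide
      obtain ⟨i, hi⟩ := h5 j l
      exact key i (h2 i hi.1) (h4 i hi.2)

lemma good_sum (p : ℕ) {ι : Type*} (T : Finset ι)
    (Q : Finset (Fin n) → Ideal (MvPolynomial (Fin n) k))
    (z : ι → Kos n (MvPolynomial (Fin n) k))
    (h : ∀ m ∈ T, ∃ w : Kos n (MvPolynomial (Fin n) k), InDeg (p + 2) w ∧
        ∀ N, N.card = p + 1 → z m N - d X w N ∈ Q N) :
    ∃ w : Kos n (MvPolynomial (Fin n) k), InDeg (p + 2) w ∧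
        ∀ N, N.card = p + 1 → (∑ m ∈ T, z m N) - d X w N ∈ Q N := by
  classical
  induction T using Finset.induction_on with
  | empty => exact ⟨0, InDeg.zero, fun N _ => by simp [d_zero]⟩
  | insert a T ha ih =>
    obtain ⟨w1, h1, h2⟩ := ih (fun m hm => h m (Finset.mem_insert_of_mem hm))
    obtain ⟨w2, h3, h4⟩ := h a (Finset.mem_insert_self a T)
    refine ⟨w2 + w1, h3.add h1, fun N hN => ?_⟩
    rw [Finset.sum_insert ha, d_add, Pi.add_apply]
    have := (Q N).add_mem (h4 N hN) (h2 N hN)
    convert this using 1
    ring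

theorem isGolod_PJ [CharZero k] : IsGolod (monId k PJ) := by
  classical
  refine isGolod_of _ (fun N => monId k (PQ N)) ?_ ?_
  · intro A B h1 h2 h3
    exact monId_mul_le (PQ_mul h1 h2 h3)
  · intro p z hz hdz
    obtain ⟨T, hT⟩ := sum_comp z
    simp only [hT]
    refine good_sum p T (fun N => monId k (PQ N)) (fun m => comp m z) fun m _ => ?_
    by_cases c1 : ∃ i, 5 ≤ m i
    · obtain ⟨i, hi⟩ := c1
      refine ⟨0, InDeg.zero, fun N _ => ?_⟩
      rw [d_zero, Pi.zero_apply, sub_zero]
      unfold comp
      split_ifs with h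
      · apply monomial_mem_monId
        refine Or.inl ⟨i, ?_⟩
        simp only [Finsupp.tsub_apply, ind_apply]
        split_ifs <;> omega
      · exact Ideal.zero_mem _
    · push Not at c1
      by_cases c2 : ∃ i, 1 ≤ m i ∧ m i ≤ 3
      · obtain ⟨i, hi1, hi3⟩ := c2
        have hmi : (m i : k) ≠ 0 := by
          have : m i ≠ 0 := by omega
          exact_mod_cast this
        refine ⟨(m i : k)⁻¹ • del i (comp m z), (del_inDeg (comp_inDeg hz m) i).smul _,
          fun N _ => ?_⟩
        have e1 : comp m z N - d X ((m i : k)⁻¹ • del i (comp m z)) N =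
            (m i : k)⁻¹ • del i (comp m (d X z)) N := by
          rw [d_smul, Pi.smul_apply, ← comp_d]
          have h1 := homotopy i (comp m z) N
          rw [euler_comp] at h1
          have h2 : comp m z N = (m i : k)⁻¹ • ((m i : k) • comp m z N) := by
            rw [smul_smul, inv_mul_cancel₀ hmi, one_smul]
          rw [← h1] at h2
          conv_lhs => rw [h2]
          rw [smul_add]; ring
        rw [e1, Algebra.smul_def]
        apply Ideal.mul_mem_left
        unfold del
        split_ifs with hiN
        · rw [← Int.cast_smul_eq_zsmul k, Algebra.smul_def]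
          apply Ideal.mul_mem_left
          unfold comp
          split_ifs with hM
          · by_cases h0 : coeff (m - ind (N.erase i)) (d X z (N.erase i)) = 0
            · rw [h0]; simp
            · have h1 := (mem_monId PJ_mono).1 (hdz (N.erase i)) _ (mem_support_iff.2 h0)
              rw [pderiv_monomial]
              apply monomial_mem_monId
              rcases h1 with ⟨j, hj, _⟩ | h1
              · refine Or.inl ⟨j, ?_⟩
                have hji : j ≠ i := by
                  rintro rfl
                  simp only [Finsupp.tsub_apply] at hj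
                  omega
                simp only [Finsupp.tsub_apply, Finsupp.single_apply, if_neg hji.symm] at hj ⊢
                omega
              · refine Or.inr (Or.inr ⟨i, hiN, ?_, fun j hj => ?_⟩)
                · have := h1 i
                  simp only [Finsupp.tsub_apply, Finsupp.single_apply, if_true] at this ⊢
                  omega
                · have := h1 j
                  simp only [Finsupp.tsub_apply, Finsupp.single_apply, if_neg hj.symm] at this ⊢
                  omega
          · simp
        · exact Ideal.zero_mem _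
      · push Not at c2
        refine ⟨0, InDeg.zero, fun N hN => ?_⟩
        rw [d_zero, Pi.zero_apply, sub_zero]
        by_cases hle : ind N ≤ m
        · have hN1 : ∀ i ∈ N, m i = 4 := by
            intro i hi
            have h1 := hle i
            simp only [ind_apply, if_pos hi] at h1
            have h2 := c2 i h1
            have h3 := c1 i
            omega
          by_cases c3 : ∃ i, i ∉ N ∧ 1 ≤ m i
          · obtain ⟨i, hi, hi1⟩ := c3
            unfold comp
            rw [if_pos hle]
            apply monomial_mem_monId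
            refine Or.inl ⟨i, ?_⟩
            have h2 := c2 i hi1
            simp only [Finsupp.tsub_apply, ind_apply, if_neg hi]
            omega
          · push Not at c3
            by_cases c4 : 2 ≤ N.card
            · unfold comp
              rw [if_pos hle]
              apply monomial_mem_monId
              refine Or.inr (Or.inl ⟨c4, fun i hi => ?_⟩)
              simp only [Finsupp.tsub_apply, ind_apply, if_pos hi]
              have := hN1 i hi
              omega
            · -- N = {t}
              have hN' : N.card = 1 := by omega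
              obtain ⟨t, rfl⟩ := Finset.card_eq_one.1 hN'
              have h1 : d X (comp m z) ∅ = X t * comp m z {t} := by
                simp only [d]
                rw [Finset.sum_eq_single t]
                · simp [sgn]
                · intro j _ hj
                  have : comp m z (insert j ∅) = 0 := by
                    unfold comp
                    rw [if_neg]
                    intro h
                    have h2 := h j
                    have h3 := c3 j (by simpa using hj)
                    simp at h2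
                    omega
                  rw [this, mul_zero, smul_zero]
                · intro h; simp at h
              have h2 : comp m (d X z) ∅ = 0 := by
                unfold comp
                split_ifs
                · by_cases h0 : coeff (m - ind ∅) (d X z ∅) = 0
                  · rw [h0]; simp
                  · exfalso
                    have h3 := (mem_monId PJ_mono).1 (hdz ∅) _ (mem_support_iff.2 h0)
                    have hm : ∀ j, j ≠ t → (m - ind (∅ : Finset (Fin 4))) j = 0 := by
                      intro j hj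
                      have h3 := c3 j (by simpa using hj)
                      simp only [Finsupp.tsub_apply]
                      omega
                    rcases h3 with ⟨j, _, hj5⟩ | h3
                    · rw [Finsupp.degree_eq_sum, Finset.sum_eq_single t (fun j _ hj => hm j hj)
                        (fun h => absurd (mem_univ t) h)] at hj5
                      have := hN1 t (by simp)
                      simp only [Finsupp.tsub_apply] at hj5
                      omega
                    · have h5 : ∀ t : Fin 4, ∃ j : Fin 4, j ≠ t := by decide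
                      obtain ⟨j, hj⟩ := h5 t
                      have := h3 j
                      rw [hm j hj] at this
                      omega
                · rfl
              rw [comp_d, h2] at h1
              have h3 : comp m z {t} = 0 := by
                rcases mul_eq_zero.1 h1.symm with h | h
                · exact absurd h (X_ne_zero t)
                · exact h
              rw [h3]
              exact Ideal.zero_mem _
        · unfold comp
          rw [if_neg hle]
          exact Ideal.zero_mem _

/-! ### Non-Golodness -/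

lemma mul_add_left' {R : Type*} [CommRing R] (a b c : Kos n R) :
    mul (a + b) c = mul a c + mul b c := by
  funext N
  simp only [mul, Pi.add_apply, add_mul, smul_add, Finset.sum_add_distrib]

lemma mul_add_right' {R : Type*} [CommRing R] (a b c : Kos n R) :
    mul a (b + c) = mul a b + mul a c := by
  funext N
  simp only [mul, Pi.add_apply, mul_add, smul_add, Finset.sum_add_distrib]

lemma mul_zero_left' {R : Type*} [CommRing R] (c : Kos n R) : mul 0 c = 0 := by
  funext N; simp [mul]

lemma mul_zero_right' {R : Type*} [CommRing R] (c : Kos n R) : mul c 0 = 0 := by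
  funext N; simp [mul]

lemma mul_smul_left' {R : Type*} [CommRing R] [Algebra k R] (t : k) (a b : Kos n R) :
    mul (t • a) b = t • mul a b := by
  funext N
  simp only [mul, Pi.smul_apply, Finset.smul_sum, smul_mul_assoc]
  refine Finset.sum_congr rfl fun A _ => ?_
  rw [smul_comm]

lemma mul_smul_right' {R : Type*} [CommRing R] [Algebra k R] (t : k) (a b : Kos n R) :
    mul a (t • b) = t • mul a b := by
  funext N
  simp only [mul, Pi.smul_apply, Finset.smul_sum, mul_smul_comm]
  refine Finset.sum_congr rfl fun A _ => ?_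
  rw [smul_comm]

lemma mul_sum_eq_zero {R : Type*} [CommRing R] [Algebra k R] {ι : Type*} (f : ι → Kos n R)
    (h : ∀ i j, mul (f i) (f j) = 0) (c c' : ι →₀ k) :
    mul (c.sum fun l t => t • f l) (c'.sum fun l t => t • f l) = 0 := by
  classical
  have h1 : ∀ j, mul (c.sum fun l t => t • f l) (f j) = 0 := by
    intro j
    unfold Finsupp.sum
    induction c.support using Finset.induction_on with
    | empty => rw [Finset.sum_empty, mul_zero_left']
    | insert a s ha ih =>
      rw [Finset.sum_insert ha, mul_add_left', ih, mul_smul_left', h, smul_zero, add_zero]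
  generalize (c.sum fun l t => t • f l) = g at h1
  unfold Finsupp.sum
  induction c'.support using Finset.induction_on with
  | empty => rw [Finset.sum_empty, mul_zero_right']
  | insert a s ha ih =>
    rw [Finset.sum_insert ha, mul_add_right', ih, mul_smul_right', h1, smul_zero, add_zero]

lemma inDeg_sum {R : Type*} [CommRing R] [Algebra k R] {ι : Type*} (f : ι → Kos n R) {p : ℕ}
    (h : ∀ i, InDeg p (f i)) (c : ι →₀ k) : InDeg p (c.sum fun l t => t • f l) := by
  classical
  unfold Finsupp.sum
  induction c.support using Finset.induction_on with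
  | empty => rw [Finset.sum_empty]; exact InDeg.zero
  | insert a s ha ih =>
    rw [Finset.sum_insert ha]
    exact ((h a).smul _).add ih

lemma zero_of_sign {M : Type*} [AddCommGroup M] {y : M} (m : ℕ) (h : ((-1 : ℤ) ^ m) • y = 0) :
    y = 0 := by
  have h3 := congrArg (fun t => ((-1 : ℤ) ^ m) • t) h
  simp only [smul_smul, smul_zero, ← mul_pow] at h3
  simpa using h3

lemma top_zero {R : Type u} [CommRing R] [Algebra k R] {x : Fin 4 → R}
    (h : HasTrivialMassey k x) {u v : Kos 4 R} (hu : InDeg 2 u) (hv : InDeg 2 v)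
    (hdu : d x u = 0) (hdv : d x v = 0) : mul u v univ = 0 := by
  obtain ⟨Λ, μ, hhom, hcyc, _, hspan, hmas⟩ := h
  obtain ⟨c, w, hw⟩ := hspan 1 u hu hdu
  obtain ⟨c', w', hw'⟩ := hspan 1 v hv hdv
  have hprod : ∀ l l' : Λ 1, mul (μ [⟨1, l⟩]) (μ [⟨1, l'⟩]) = 0 := by
    intro l l'
    have h1 := hmas [⟨1, l⟩, ⟨1, l'⟩] (by simp)
    have h2 : μ [⟨1, l⟩, ⟨1, l'⟩] = 0 := by
      funext N
      apply hhom [⟨1, l⟩, ⟨1, l'⟩] (by simp) N
      have := Finset.card_le_univ N
      simp only [Fintype.card_fin] at this
      simp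
      omega
    rw [h2, d_zero] at h1
    have e1 : (List.length [(⟨1, l⟩ : Σ i, Λ i), ⟨1, l'⟩]) = 2 := rfl
    rw [e1, show Finset.Ico 1 2 = {1} from rfl, Finset.sum_singleton] at h1
    simp only [List.take_succ_cons, List.take_zero, List.drop_succ_cons, List.drop_zero,
      List.map_cons, List.map_nil, List.sum_cons, List.sum_nil] at h1
    exact zero_of_sign _ h1.symm
  have hdeg : ∀ l : Λ 1, InDeg 2 (μ [⟨1, l⟩]) := by
    intro l
    have := hhom [⟨1, l⟩] (by simp)
    simpa using this
  set U := c.sum (fun l t => t • μ [⟨1, l⟩]) with hU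
  set V := c'.sum (fun l t => t • μ [⟨1, l⟩]) with hV
  have hUV : mul U V = 0 := mul_sum_eq_zero (fun l => μ [⟨1, l⟩]) hprod c c'
  have hu' : u = U + d x w := by rw [hw]; abel
  have hv' : v = V + d x w' := by rw [hw']; abel
  have hdU : d x U = 0 := by
    have : U = u - d x w := by rw [hw]; abel
    rw [this, d_sub, hdu, d_d, sub_zero]
  have hUdeg : InDeg 2 U := inDeg_sum _ hdeg c
  have e1 : mul u v = mul U V + mul U (d x w') + mul (d x w) v := by
    conv_lhs => rw [hu', mul_add_left']
    conv_lhs => enter [1]; rw [hv', mul_add_right']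
  rw [e1, hUV]
  simp only [Pi.add_apply, zero_add]
  rw [mul_d_right_univ x hUdeg hdU, mul_d_left_univ x hdv, add_zero]

lemma X4_mem (a b : Fin 4) : (X a ^ 4 * X b : MvPolynomial (Fin 4) k) ∈ monId k PJ := by
  have : (X a ^ 4 * X b : MvPolynomial (Fin 4) k) =
      monomial (Finsupp.single a 4 + Finsupp.single b 1) 1 := by
    rw [X_pow_eq_monomial, X, monomial_mul, one_mul]
  rw [this]
  apply monomial_mem_monId
  refine Or.inl ⟨a, by simp, ?_⟩
  rw [map_add]; simp

lemma prod_mem (i a b : Fin 4) (h : i = a ∨ i = b) :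
    (X i * (X a ^ 3 * X b ^ 3) : MvPolynomial (Fin 4) k) ∈
      idealOfVars (Fin 4) k ^ 2 * monId k PJ := by
  have hX : ∀ j : Fin 4, (X j ^ 2 : MvPolynomial (Fin 4) k) ∈ idealOfVars (Fin 4) k ^ 2 :=
    fun j => Ideal.pow_mem_pow (Ideal.subset_span (Set.mem_range_self j)) 2
  rcases h with rfl | rfl
  · have : (X i * (X i ^ 3 * X b ^ 3) : MvPolynomial (Fin 4) k) = X b ^ 2 * (X i ^ 4 * X b) := by
      ring
    rw [this]
    exact Ideal.mul_mem_mul (hX b) (X4_mem i b)
  · have : (X i * (X a ^ 3 * X i ^ 3) : MvPolynomial (Fin 4) k) = X a ^ 2 * (X i ^ 4 * X a) := by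
      ring
    rw [this]
    exact Ideal.mul_mem_mul (hX a) (X4_mem i a)

lemma vars_le : idealOfVars (Fin n) k ≤ monId k (fun s => 1 ≤ s.degree) := by
  rw [idealOfVars, Ideal.span_le]
  rintro _ ⟨i, rfl⟩
  exact monomial_mem_monId (s := Finsupp.single i 1) (by simp) 1

lemma not_mem : (X 0 ^ 3 * X 1 ^ 3 * (X 2 ^ 3 * X 3 ^ 3) : MvPolynomial (Fin 4) k) ∉
    idealOfVars (Fin 4) k ^ 2 * monId k PJ := by
  intro h
  have h1 : idealOfVars (Fin 4) k ^ 2 * monId k PJ ≤ monId k (fun s => ∃ i, 4 ≤ s i) := by
    refine (Ideal.mul_mono_left ((Ideal.pow_le_self (by norm_num)).trans vars_le)).trans ?_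
    apply monId_mul_le
    rintro s t hs (⟨i, hi, _⟩ | ht)
    · exact ⟨i, by rw [Finsupp.add_apply]; omega⟩
    · obtain ⟨i, hi⟩ : ∃ i, s i ≠ 0 := by
        by_contra hne
        push Not at hne
        have : s = 0 := Finsupp.ext hne
        rw [this] at hs; simp at hs
      exact ⟨i, by rw [Finsupp.add_apply]; have := ht i; omega⟩
  have h2 := h1 h
  have e : (X 0 ^ 3 * X 1 ^ 3 * (X 2 ^ 3 * X 3 ^ 3) : MvPolynomial (Fin 4) k) =
      monomial (Finsupp.single 0 3 + Finsupp.single 1 3 +
        (Finsupp.single 2 3 + Finsupp.single 3 3)) 1 := by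
    simp only [X_pow_eq_monomial, monomial_mul, one_mul]
  rw [e, mem_monId] at h2
  · obtain ⟨i, hi⟩ := h2 _ (by rw [mem_support_iff, coeff_monomial, if_pos rfl]; exact one_ne_zero)
    fin_cases i <;> simp at hi
  · rintro s t hst ⟨i, hi⟩
    exact ⟨i, hi.trans (hst i)⟩

theorem not_isGolod : ¬ IsGolod (idealOfVars (Fin 4) k ^ 2 * monId k PJ) := by
  classical
  intro h
  set I := idealOfVars (Fin 4) k ^ 2 * monId k PJ with hI
  set π := Ideal.Quotient.mk I with hπ
  have hcyc : ∀ a b : Fin 4, a ≠ b → d (fun i => π (X i))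
      (fun N => if N = {a, b} then π (X a ^ 3 * X b ^ 3) else 0) = 0 := by
    intro a b _
    funext N
    simp only [d, Pi.zero_apply]
    apply Finset.sum_eq_zero
    intro i _
    split_ifs with h1
    · have h2 : i = a ∨ i = b := by
        have : i ∈ ({a, b} : Finset (Fin 4)) := h1 ▸ Finset.mem_insert_self i N
        simpa using this
      rw [← map_mul, hπ, Ideal.Quotient.eq_zero_iff_mem.2 (prod_mem i a b h2), smul_zero]
    · rw [mul_zero, smul_zero]
  have hdeg : ∀ a b : Fin 4, a ≠ b → InDeg 2
      (fun N => if N = {a, b} then π (X a ^ 3 * X b ^ 3) else 0) := by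
    intro a b hab N hN
    dsimp only
    rw [if_neg]
    rintro rfl
    exact hN (Finset.card_pair hab)
  have h1 := top_zero h (hdeg 0 1 (by decide)) (hdeg 2 3 (by decide)) (hcyc 0 1 (by decide))
    (hcyc 2 3 (by decide))
  rw [mul_univ, Finset.sum_eq_single {0, 1}] at h1
  · have h2 : ({0, 1} : Finset (Fin 4))ᶜ = {2, 3} := by decide
    rw [h2, if_pos rfl, if_pos rfl] at h1
    have h3 : shuf ({0, 1} : Finset (Fin 4)) {2, 3} = 1 := by decide
    rw [h3, one_smul, ← map_mul, hπ, Ideal.Quotient.eq_zero_iff_mem] at h1
    exact not_mem h1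
  · intro A _ hA
    rw [if_neg hA, zero_mul, smul_zero]
  · intro h; exact absurd (mem_univ _) h

end Pool.Agent.R674.Golod
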