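import Pool.Agent.R674.Golod.Alg

/-! Trivial Massey operations from a homotopy. -/

namespace Pool.Agent.R674.Golod

open Finset

universe u v

variable {n : ℕ} {R : Type*} [CommRing R] {Λ : Type*}

/-- total degree of a sequence -/
def dg (deg : Λ → ℕ) (L : List Λ) : ℕ := (L.map deg).sum

lemma dg_append (deg : Λ → ℕ) (L L' : List Λ) : dg deg (L ++ L') = dg deg L + dg deg L' := by
  simp [dg]

/-- The recursive construction of a Massey operation. -/
noncomputable def mu (deg : Λ → ℕ) (z : Λ → Kos n R) (h : Kos n R → Kos n R) (L : List Λ) :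
    Kos n R :=
  if _hL : L.length ≤ 1 then (match L with | [l] => z l | _ => 0)
  else h (∑ j ∈ (Finset.Ico 1 L.length).attach,
    ((-1 : ℤ) ^ (dg deg (L.take j.1) + j.1)) •
      mul (mu deg z h (L.take j.1)) (mu deg z h (L.drop j.1)))
termination_by L.length
decreasing_by
  · have := Finset.mem_Ico.1 j.2
    simp only [List.length_take]
    omega
  · have := Finset.mem_Ico.1 j.2
    simp only [List.length_drop]
    omega

/-- the Massey sum -/
noncomputable def ms (deg : Λ → ℕ) (z : Λ → Kos n R) (h : Kos n R → Kos n R) (L : List Λ) :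
    Kos n R :=
  ∑ j ∈ Finset.Ico 1 L.length, ((-1 : ℤ) ^ (dg deg (L.take j) + j)) •
      mul (mu deg z h (L.take j)) (mu deg z h (L.drop j))

lemma mu_single (deg : Λ → ℕ) (z : Λ → Kos n R) (h : Kos n R → Kos n R) (l : Λ) :
    mu deg z h [l] = z l := by
  rw [mu]; simp

lemma mu_of_two_le (deg : Λ → ℕ) (z : Λ → Kos n R) (h : Kos n R → Kos n R) (L : List Λ)
    (hL : 2 ≤ L.length) : mu deg z h L = h (ms deg z h L) := by
  rw [mu, dif_neg (by omega), ms]
  congr 1
  exact Finset.sum_attach (Finset.Ico 1 L.length) (fun j =>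
    ((-1 : ℤ) ^ (dg deg (L.take j) + j)) • mul (mu deg z h (L.take j)) (mu deg z h (L.drop j)))

lemma cycle_identity (x : Fin n → R) (deg : Λ → ℕ) (z : Λ → Kos n R) (h : Kos n R → Kos n R)
    (L : List Λ)
    (ih : ∀ L' : List Λ, L'.length < L.length → L' ≠ [] →
      InDeg (dg deg L' + L'.length - 1) (mu deg z h L') ∧ d x (mu deg z h L') = ms deg z h L') :
    d x (ms deg z h L) = 0 := by
  classical
  set μ := mu deg z h with hμ
  have hlen : ∀ j, j < L.length → (L.take j).length = j := by
    intro j hj; rw [List.length_take]; omega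
  have e0 : d x (ms deg z h L) =
      ∑ j ∈ Finset.Ico 1 L.length, ((((-1 : ℤ) ^ (dg deg (L.take j) + j)) •
        mul (ms deg z h (L.take j)) (μ (L.drop j))) - mul (μ (L.take j)) (ms deg z h (L.drop j))) := by
    have e1 : d x (ms deg z h L) = ∑ j ∈ Finset.Ico 1 L.length,
        ((-1 : ℤ) ^ (dg deg (L.take j) + j)) • d x (mul (μ (L.take j)) (μ (L.drop j))) := by
      unfold ms
      have := map_sum (dL x ℤ) (fun j => ((-1 : ℤ) ^ (dg deg (L.take j) + j)) •
        mul (μ (L.take j)) (μ (L.drop j))) (Finset.Ico 1 L.length)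
      refine this.trans (Finset.sum_congr rfl fun j _ => ?_)
      exact d_smul x _ _
    rw [e1]
    refine Finset.sum_congr rfl fun j hj => ?_
    rw [Finset.mem_Ico] at hj
    have h1 := ih (L.take j) (by rw [hlen j hj.2]; exact hj.2)
      (by intro e; have := congrArg List.length e; rw [hlen j hj.2] at this; simp at this; omega)
    have h2 := ih (L.drop j) (by rw [List.length_drop]; omega)
      (by intro e; have := congrArg List.length e; rw [List.length_drop] at this; simp at this; omega)
    rw [leibniz x h1.1, h1.2, h2.2, hlen j hj.2, smul_add, smul_smul, sub_eq_add_neg]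
    congr 1
    have : ((-1 : ℤ) ^ (dg deg (L.take j) + j)) * ((-1 : ℤ) ^ (dg deg (L.take j) + j - 1)) = -1 := by
      obtain ⟨m, hm⟩ : ∃ m, dg deg (L.take j) + j = m + 1 := ⟨dg deg (L.take j) + j - 1, by omega⟩
      rw [hm, Nat.add_sub_cancel, pow_succ]
      have : ((-1 : ℤ) ^ m) * ((-1 : ℤ) ^ m) = 1 := by
        rw [← mul_pow]; simp
      calc _ = -(((-1 : ℤ) ^ m) * ((-1 : ℤ) ^ m)) := by ring
        _ = -1 := by rw [this]
    rw [this, neg_smul, one_smul]
  rw [e0, Finset.sum_sub_distrib, sub_eq_zero]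
  have e1 : ∀ j ∈ Finset.Ico 1 L.length, ((-1 : ℤ) ^ (dg deg (L.take j) + j)) •
      mul (ms deg z h (L.take j)) (μ (L.drop j)) =
      ∑ i ∈ Finset.Ico 1 j, (((-1 : ℤ) ^ (dg deg (L.take j) + j)) *
        ((-1 : ℤ) ^ (dg deg (L.take i) + i))) •
        mul (mul (μ (L.take i)) (μ ((L.take j).drop i))) (μ (L.drop j)) := by
    intro j hj
    rw [Finset.mem_Ico] at hj
    unfold ms
    rw [hlen j hj.2, sum_mul', Finset.smul_sum]
    refine Finset.sum_congr rfl fun i hi => ?_
    rw [Finset.mem_Ico] at hi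
    rw [zsmul_mul, smul_smul, List.take_take, min_eq_left hi.2.le]
  have e2 : ∀ i ∈ Finset.Ico 1 L.length, mul (μ (L.take i)) (ms deg z h (L.drop i)) =
      ∑ m ∈ Finset.Ico 1 (L.length - i), ((-1 : ℤ) ^ (dg deg ((L.drop i).take m) + m)) •
        mul (mul (μ (L.take i)) (μ ((L.drop i).take m))) (μ (L.drop (i + m))) := by
    intro i hi
    unfold ms
    rw [List.length_drop, mul_sum']
    refine Finset.sum_congr rfl fun m _ => ?_
    rw [mul_zsmul, mul_assoc', List.drop_drop]
  rw [Finset.sum_congr rfl e1, Finset.sum_congr rfl e2, Finset.sum_sigma', Finset.sum_sigma']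
  refine Finset.sum_bij' (fun q _ => ⟨q.2, q.1 - q.2⟩) (fun q _ => ⟨q.1 + q.2, q.1⟩)
    ?_ ?_ ?_ ?_ ?_
  · rintro ⟨j, i⟩ hq
    simp only [mem_sigma, mem_Ico] at hq ⊢
    omega
  · rintro ⟨i, m⟩ hq
    simp only [mem_sigma, mem_Ico] at hq ⊢
    omega
  · rintro ⟨j, i⟩ hq
    simp only [mem_sigma, mem_Ico] at hq
    simp only [Sigma.mk.injEq, heq_eq_eq, and_true]
    omega
  · rintro ⟨i, m⟩ hq
    simp
  · rintro ⟨j, i⟩ hq
    simp only [mem_sigma, mem_Ico] at hq
    dsimp only
    have s1 : (L.take j).drop i = (L.drop i).take (j - i) := by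
      rw [List.drop_take]
    have s2 : i + (j - i) = j := by omega
    have s3 : L.take j = L.take i ++ (L.drop i).take (j - i) := by
      conv_lhs => rw [← s2]
      rw [List.take_add]
    rw [s1, s2]
    congr 1
    rw [s3, dg_append]
    have : ((-1 : ℤ) ^ (dg deg (L.take i) + i)) * ((-1 : ℤ) ^ (dg deg (L.take i) + i)) = 1 := by
      rw [← mul_pow]; simp
    calc (-1 : ℤ) ^ (dg deg (L.take i) + dg deg ((L.drop i).take (j - i)) + j) *
        (-1) ^ (dg deg (L.take i) + i)
        = (((-1 : ℤ) ^ (dg deg (L.take i) + i)) * ((-1 : ℤ) ^ (dg deg (L.take i) + i))) *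
          (-1) ^ (dg deg ((L.drop i).take (j - i)) + (j - i)) := by
          rw [← pow_add, ← pow_add, ← pow_add]
          congr 1
          omega
      _ = _ := by rw [this, one_mul]

lemma mul_coeff_mem {I : Ideal R} {a b : Kos n R} (ha : ∀ N, a N ∈ I) (hb : ∀ N, b N ∈ I)
    (N : Finset (Fin n)) : mul a b N ∈ I ^ 2 := by
  unfold mul
  apply Ideal.sum_mem
  intro A _
  apply zsmul_mem
  rw [pow_two]
  exact Ideal.mul_mem_mul (ha A) (hb _)

lemma mu_spec (x : Fin n → R) (I : Ideal R) (deg : Λ → ℕ) (z : Λ → Kos n R)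
    (h : Kos n R → Kos n R) (hz1 : ∀ l, InDeg (deg l) (z l)) (hz2 : ∀ l, d x (z l) = 0)
    (hz3 : ∀ l N, z l N ∈ I) (hdeg : ∀ l, 1 ≤ deg l)
    (hh : ∀ p s, InDeg p s → (∀ N, s N ∈ I ^ 2) → d x s = 0 →
      InDeg (p + 1) (h s) ∧ (∀ N, h s N ∈ I) ∧ d x (h s) = s) :
    ∀ (m : ℕ) (L : List Λ), L.length = m → L ≠ [] →
      InDeg (dg deg L + L.length - 1) (mu deg z h L) ∧ (∀ N, mu deg z h L N ∈ I) ∧
        d x (mu deg z h L) = ms deg z h L := by
  intro m
  induction m using Nat.strong_induction_on with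
  | _ m ih =>
    intro L hm hL
    by_cases h1 : L.length = 1
    · obtain ⟨l, rfl⟩ := List.length_eq_one_iff.1 h1
      rw [mu_single]
      refine ⟨by simpa [dg] using hz1 l, hz3 l, ?_⟩
      rw [hz2]
      simp [ms]
    · have h2 : 2 ≤ L.length := by
        have := List.length_pos_iff.2 hL
        omega
      have hcyc := cycle_identity x deg z h L (fun L' hL' hne => by
        have := ih L'.length (by omega) L' rfl hne
        exact ⟨this.1, this.2.2⟩)
      have hterm : ∀ j ∈ Finset.Ico 1 L.length,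
          InDeg (dg deg L + L.length - 2) (mul (mu deg z h (L.take j)) (mu deg z h (L.drop j))) ∧
          ∀ N, mul (mu deg z h (L.take j)) (mu deg z h (L.drop j)) N ∈ I ^ 2 := by
        intro j hj
        rw [Finset.mem_Ico] at hj
        have l1 : (L.take j).length = j := by rw [List.length_take]; omega
        have l2 : (L.drop j).length = L.length - j := List.length_drop
        have n1 : L.take j ≠ [] := by
          intro e; rw [e] at l1; simp at l1; omega
        have n2 : L.drop j ≠ [] := by
          intro e; rw [e] at l2; simp at l2; omega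
        have i1 := ih j (by omega) (L.take j) l1 n1
        have i2 := ih (L.length - j) (by omega) (L.drop j) l2 n2
        refine ⟨?_, mul_coeff_mem i1.2.1 i2.2.1⟩
        have := inDeg_mul i1.1 i2.1
        rw [l1, l2] at this
        convert this using 1
        have e : dg deg L = dg deg (L.take j) + dg deg (L.drop j) := by
          rw [← dg_append, List.take_append_drop]
        omega
      have hS1 : InDeg (dg deg L + L.length - 2) (ms deg z h L) := by
        unfold ms
        exact inDeg_finsum _ _ fun j hj => inDeg_zsmul _ (hterm j hj).1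
      have hS2 : ∀ N, ms deg z h L N ∈ I ^ 2 := by
        intro N
        unfold ms
        rw [Finset.sum_apply]
        apply Ideal.sum_mem
        intro j hj
        rw [Pi.smul_apply]
        exact zsmul_mem ((hterm j hj).2 N) _
      have := hh _ _ hS1 hS2 hcyc
      rw [mu_of_two_le deg z h L h2]
      refine ⟨?_, this.2⟩
      convert this.1 using 1
      have : 1 ≤ dg deg L := by
        match L, hL with
        | (l :: L'), _ =>
          have := hdeg l
          simp only [dg, List.map_cons, List.sum_cons]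
          omega
      omega

/-- If cycles of positive degree have coefficients in `I` and cycles with coefficients in `I²` are
boundaries of elements with coefficients in `I`, then there is a trivial Massey operation. -/
theorem hasTrivialMassey_of_homotopy {k : Type u} [Field k] {R : Type u} [CommRing R] [Algebra k R]
    (x : Fin n → R) (I : Ideal R) (h : Kos n R → Kos n R)
    (hI : ∀ (p : ℕ) (a : Kos n R), InDeg (p + 1) a → d x a = 0 → ∀ N, a N ∈ I)
    (hh : ∀ p s, InDeg p s → (∀ N, s N ∈ I ^ 2) → d x s = 0 →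
      InDeg (p + 1) (h s) ∧ (∀ N, h s N ∈ I) ∧ d x (h s) = s) :
    HasTrivialMassey k x := by
  classical
  let W : ℕ → Submodule k (Kos n R) := fun p =>
    { carrier := {a | InDeg (p + 1) a ∧ d x a = 0}
      add_mem' := by
        rintro a b ⟨h1, h2⟩ ⟨h4, h5⟩
        exact ⟨h1.add h4, by rw [d_add, h2, h5, add_zero]⟩
      zero_mem' := ⟨InDeg.zero, d_zero x⟩
      smul_mem' := by
        rintro t a ⟨h1, h2⟩
        exact ⟨h1.smul t, by rw [d_smul, h2, smul_zero]⟩ }
  let B : Submodule k (Kos n R) := LinearMap.range (dL x k)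
  let f : (p : ℕ) → (W p →ₗ[k] (Kos n R ⧸ B)) := fun p => B.mkQ.comp (W p).subtype
  let b := fun p => Module.Basis.ofVectorSpace k (LinearMap.range (f p))
  have hb : ∀ p (l : Module.Basis.ofVectorSpaceIndex k (LinearMap.range (f p))),
      ∃ w : W p, f p w = (b p l : (Kos n R ⧸ B)) := fun p l => (b p l).2
  choose z hz using hb
  let zz : (Σ i, Module.Basis.ofVectorSpaceIndex k (LinearMap.range (f i))) → Kos n R :=
    fun l => (z l.1 l.2 : Kos n R)
  have hspec := mu_spec x I (fun l : (Σ i, Module.Basis.ofVectorSpaceIndex k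
    (LinearMap.range (f i))) => l.1 + 1) zz h (fun l => (z l.1 l.2).2.1) (fun l => (z l.1 l.2).2.2)
    (fun l => hI l.1 _ (z l.1 l.2).2.1 (z l.1 l.2).2.2) (fun l => by omega) hh
  refine ⟨fun p => Module.Basis.ofVectorSpaceIndex k (LinearMap.range (f p)),
    mu (fun l => l.1 + 1) zz h, ?_, ?_, ?_, ?_, ?_⟩
  · intro L hL
    exact (hspec _ L rfl hL).1
  · intro l
    rw [mu_single]
    exact (z l.1 l.2).2.2
  · intro p c hc
    simp only [mu_single] at hc
    have h1 : B.mkQ (c.sum fun l t => t • (z p l : Kos n R)) = 0 := by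
      rw [Submodule.mkQ_apply, Submodule.Quotient.mk_eq_zero]
      obtain ⟨w, hw⟩ := hc
      exact ⟨w, hw⟩
    have h2 : c.sum (fun l t => t • (b p l)) = 0 := by
      apply Subtype.ext
      rw [Finsupp.sum, Submodule.coe_zero, ← h1, Finsupp.sum, map_sum, Submodule.coe_sum]
      refine Finset.sum_congr rfl fun l _ => ?_
      rw [map_smul, Submodule.coe_smul, ← hz p l]
      rfl
    have h3 := (b p).linearIndependent
    rw [linearIndependent_iff] at h3
    exact h3 c h2
  · intro p a ha hda
    have hmem : a ∈ W p := ⟨ha, hda⟩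
    let y : LinearMap.range (f p) := ⟨f p ⟨_, hmem⟩, ⟨_, rfl⟩⟩
    refine ⟨(b p).repr y, ?_⟩
    simp only [mu_single]
    have h1 := (b p).linearCombination_repr y
    have h2 : B.mkQ (((b p).repr y).sum fun l t => t • (z p l : Kos n R)) = f p ⟨_, hmem⟩ := by
      rw [Finsupp.sum, map_sum]
      have h3 := congrArg (Subtype.val) h1
      rw [Finsupp.linearCombination_apply, Finsupp.sum, Submodule.coe_sum] at h3
      rw [show (f p ⟨_, hmem⟩) = (y : Kos n R ⧸ B) from rfl, ← h3]
      refine Finset.sum_congr rfl fun l _ => ?_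
      rw [map_smul, Submodule.coe_smul, ← hz p l]
      rfl
    have h4 : B.mkQ (a - ((b p).repr y).sum fun l t => t • (z p l : Kos n R)) = 0 := by
      rw [map_sub, h2]
      show B.mkQ a - B.mkQ a = 0
      rw [sub_self]
    rw [Submodule.mkQ_apply, Submodule.Quotient.mk_eq_zero] at h4
    obtain ⟨w', hw'⟩ := h4
    exact ⟨w', hw'⟩
  · intro L hL
    exact (hspec _ L rfl (by intro e; rw [e] at hL; simp at hL)).2.2

end Pool.Agent.R674.Golod
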