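import Pool.Agent.R674.Golod.Massey

/-! Minimal multiplicity implies Golod. -/

namespace Pool.Agent.R674.Golod

open Finset

universe u

variable {n : ℕ} {k : Type u} [Field k] {R : Type u} [CommRing R] [Algebra k R]

theorem hasTrivialMassey_minMult (x : Fin n → R) (t : Fin n → k)
    (h1 : ∀ i j, ∃ v : Fin n → k, x i * x j = (∑ i, t i • x i) * ∑ l, v l • x l)
    (h2 : ∀ r ∈ Ideal.span (Set.range x), (∑ i, t i • x i) * r = 0 → r = 0)
    (h3 : ∀ c : Fin n → k, ∑ i, c i • x i ∈ Ideal.span (Set.range x) ^ 2 → c = 0)
    (h4 : ∀ r : R, ∃ c : k, r - algebraMap k R c ∈ Ideal.span (Set.range x)) :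
    HasTrivialMassey k x := by
  classical
  set θ := ∑ i, t i • x i with hθ
  set I := Ideal.span (Set.range x) with hI
  have hx : ∀ i, x i ∈ I := fun i => Ideal.subset_span (Set.mem_range_self i)
  have hlin : ∀ v : Fin n → k, ∑ l, v l • x l ∈ I := by
    intro v
    apply Ideal.sum_mem
    intro l _
    rw [Algebra.smul_def]
    exact I.mul_mem_left _ (hx l)
  have hle : I ^ 2 ≤ Ideal.span {θ} * I := by
    rw [pow_two, hI, Ideal.span_mul_span', Ideal.span_le]
    rintro _ ⟨_, ⟨i, rfl⟩, _, ⟨j, rfl⟩, rfl⟩
    obtain ⟨v, hv⟩ := h1 i j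
    simp only [SetLike.mem_coe]
    rw [hv]
    exact Ideal.mul_mem_mul (Ideal.subset_span rfl) (hlin v)
  have hdiv : ∀ r : R, ∃ r' : R, r ∈ I ^ 2 → r' ∈ I ∧ θ * r' = r := by
    intro r
    by_cases hr : r ∈ I ^ 2
    · obtain ⟨r', hr', e⟩ := Ideal.mem_span_singleton_mul.1 (hle hr)
      exact ⟨r', fun _ => ⟨hr', e⟩⟩
    · exact ⟨0, fun h => absurd h hr⟩
  choose δ hδ using hdiv
  have hδ0 : δ 0 = 0 := by
    have := hδ 0 (Ideal.zero_mem _)
    exact h2 _ this.1 this.2
  refine hasTrivialMassey_of_homotopy x I
    (fun s => ∑ i, t i • wedge i (fun N => δ (s N))) ?_ ?_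
  · intro p a ha hda N
    by_cases hN : N.card = p + 1
    · choose c hc using h4
      obtain ⟨i, hi⟩ : N.Nonempty := Finset.card_pos.1 (by omega)
      have hM : i ∉ N.erase i := Finset.notMem_erase i N
      have e1 : ∑ j, (if j ∈ N.erase i then (0 : k) else
          (sgn j (N.erase i) : k) * c (a (insert j (N.erase i)))) • x j ∈ I ^ 2 := by
        have e2 : ∑ j, (if j ∈ N.erase i then (0 : k) else
          (sgn j (N.erase i) : k) * c (a (insert j (N.erase i)))) • x j =
          d x a (N.erase i) - ∑ j ∈ (N.erase i)ᶜ, sgn j (N.erase i) •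
            (x j * (a (insert j (N.erase i)) -
              algebraMap k R (c (a (insert j (N.erase i)))))) := by
          unfold d
          rw [← Finset.sum_sub_distrib, ← Finset.sum_subset (Finset.subset_univ (N.erase i)ᶜ)]
          · refine Finset.sum_congr rfl fun j hj => ?_
            rw [if_neg (Finset.mem_compl.1 hj), ← smul_sub, ← mul_sub, sub_sub_cancel, mul_smul,
              Algebra.smul_def (c _), mul_comm (x j), Int.cast_smul_eq_zsmul]
          · intro j _ hj
            rw [if_pos (by simpa using hj), zero_smul]
        rw [e2, hda, Pi.zero_apply, zero_sub]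
        apply neg_mem
        apply Ideal.sum_mem
        intro j _
        apply zsmul_mem
        rw [pow_two]
        exact Ideal.mul_mem_mul (hx j) (hc _)
      have e3 := congrFun (h3 _ e1) i
      rw [if_neg hM, Finset.insert_erase hi, Pi.zero_apply, mul_eq_zero] at e3
      have e4 : (sgn i (N.erase i) : k) ≠ 0 := by
        intro h
        have h5 := sgn_mul_self i (N.erase i)
        have h6 := congrArg (Int.cast : ℤ → k) h5
        push_cast at h6
        rw [h] at h6
        simp at h6
      have e5 := e3.resolve_left e4
      have := hc (a N)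
      rwa [e5, map_zero, sub_zero] at this
    · rw [ha N hN]; exact I.zero_mem
  · intro p s hs hs2 hds
    have hs' : InDeg p (fun N => δ (s N)) := by
      intro N hN
      show δ (s N) = 0
      rw [hs N hN, hδ0]
    have hdδ : d x (fun N => δ (s N)) = 0 := by
      funext N
      apply h2
      · unfold d
        apply Ideal.sum_mem
        intro j _
        apply zsmul_mem
        exact I.mul_mem_right _ (hx j)
      · have : θ * d x (fun N => δ (s N)) N = d x s N := by
          unfold d
          rw [Finset.mul_sum]
          refine Finset.sum_congr rfl fun j _ => ?_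
          rw [mul_smul_comm]
          congr 1
          rw [← (hδ _ (hs2 (insert j N))).2]
          have := (hδ _ (hs2 (insert j N))).2
          rw [this]
          rw [mul_left_comm, this]
        rw [this, hds]; rfl
    refine ⟨?_, ?_, ?_⟩
    · apply inDeg_finsum
      intro i _
      exact (wedge_inDeg hs' i).smul _
    · intro N
      rw [Finset.sum_apply]
      apply Ideal.sum_mem
      intro i _
      rw [Pi.smul_apply, Algebra.smul_def]
      apply I.mul_mem_left
      unfold wedge
      split_ifs
      · exact zsmul_mem (hδ _ (hs2 _)).1 _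
      · exact I.zero_mem
    · funext N
      have e1 : d x (∑ i, t i • wedge i (fun N => δ (s N))) =
          ∑ i, t i • d x (wedge i (fun N => δ (s N))) := by
        have := map_sum (dL x k) (fun i => t i • wedge i (fun N => δ (s N))) univ
        refine this.trans (Finset.sum_congr rfl fun j _ => ?_)
        exact d_smul x _ _
      rw [e1, Finset.sum_apply]
      have e2 : ∀ i, (t i • d x (wedge i (fun N => δ (s N)))) N = (t i • x i) * δ (s N) := by
        intro i
        rw [Pi.smul_apply]
        have := d_wedge x i (fun N => δ (s N)) N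
        rw [hdδ] at this
        have h0 : wedge i (0 : Kos n R) N = 0 := by simp [wedge]
        rw [h0, add_zero] at this
        rw [this, smul_mul_assoc]
      simp only [e2]
      rw [← Finset.sum_mul, ← hθ]
      exact (hδ _ (hs2 N)).2

end Pool.Agent.R674.Golod
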